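import Mathlib
import Pool.Agent.R367.IG.GeoW
import Pool.Agent.H391R2.T4.GeoC

set_option autoImplicit false

namespace Pool.Agent.H391R2.T4.IGW

open MvPolynomial

set_option linter.unusedSectionVars false

section geoc

variable {k : Type} [Field k] [CharZero k] {G : Type} [Group G] [Fintype G]
variable (y : MvPolynomial G k) {Q : Type} [Fintype Q] {J : ℕ}

open Classical in
/-- The geometric theorem. -/
theorem geoW [YData y] (d : Dat k G Q (Fin J)) (h : GD y d)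
    (Ψ : Polynomial (MvPolynomial (Fin (Fintype.card G)) k)) (hm : Ψ.Monic)
    (hΨ : Ψ.map ((aeval fun i : Fin (Fintype.card G) => esymm G k (i + 1) :
      MvPolynomial (Fin (Fintype.card G)) k →ₐ[k] MvPolynomial G k) :
      MvPolynomial (Fin (Fintype.card G)) k →+* MvPolynomial G k) =
      ∏ q ∈ orb y, (Polynomial.X - Polynomial.C q))
    (T : ℕ) (hT : ∀ e, (Ψ.coeff e).totalDegree ≤ T)
    (hsep : (Polynomial.C d.c * d.R * ∏ q ∈ (orb y).erase y,
      (Polynomial.C d.c * (Polynomial.X ^ 2 * d.R) -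
      Polynomial.C (aeval d.l q - aeval d.l y))).Separable)
    (M : ℕ) (hJM : J + 1 < M) (hB : T * (J + 1) < M) (hM : 2 + d.R.natDegree = M) (n : ℕ)
    (hn : 3 ≤ n) (hdeg : Ψ.natDegree * M = n + J)
    {N : Type} [Field N] [Algebra k N] [IsAlgClosed N]
    (ξ : Q ⊕ (Unit ⊕ (Option (Fin (Fintype.card G)) ⊕ Option (Fin (Fintype.card G)))) → N)
    (hξ : IsTranscendenceBasis k ξ) :
    ∃ (r : Fin n → N) (vv : Fin n → G → N), Function.Injective r ∧
      (∀ i, Polynomial.aeval (r i) d.w ≠ 0) ∧ (∀ i, SolP y (PX y d ξ) (r i) (vv i)) ∧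
      (∀ i, Function.Injective (vv i)) ∧
      (∀ s v, SolP y (PX y d ξ) s v → Polynomial.aeval s d.w ≠ 0 →
        ∃ i, s = r i ∧ ∃ g, v = vv i ∘ Equiv.mulLeft g) ∧
      ∀ x : Wr G n, ∏ i, Abelianization.of (x.left i) = 1 →
        ∃ σ : N ≃ₐ[k] N, (∀ v, σ (ξ v) = ξ v) ∧
        ∀ i, σ (r i) = r (x.right i) ∧
          ∀ g, σ (vv i g) = vv (x.right i) (x.left (x.right i) * g) := by
  obtain ⟨K₁, hK₁⟩ : ∃ K₁ : IntermediateField k N, K₁ = IntermediateField.adjoin k (Set.range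
      (Sum.elim (fun q => ξ (Sum.inl q)) (fun _ : Unit => ξ (Sum.inr (Sum.inl ()))))) :=
    ⟨_, rfl⟩
  have hmemY : ∀ q, ξ (Sum.inl q) ∈ K₁ := by
    intro q
    rw [hK₁]
    exact IntermediateField.subset_adjoin _ _ ⟨Sum.inl q, rfl⟩
  have hmemt : ξ (Sum.inr (Sum.inl ())) ∈ K₁ := by
    rw [hK₁]
    exact IntermediateField.subset_adjoin _ _ ⟨Sum.inr (), rfl⟩
  have hkcm : ∀ q i, Polynomial.aeval (ξ (Sum.inl q)) (kp y d.l (d.hh q) (d.ζ q) d.e i) ∈ K₁ := by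
    intro q i
    exact Algebra.adjoin_le (S := K₁.toSubalgebra) (Set.singleton_subset_iff.2 (hmemY q))
      (Polynomial.aeval_mem_adjoin_singleton _ _)
  have hθ : AlgebraicIndependent K₁ (fun i => ξ (Sum.inr (Sum.inr i))) := by
    have h1 := indep_split _ hξ.1
    rw [hK₁]
    exact h1
  have hk₁ : ∀ x : K₁, algebraMap K₁ N x ∈ IntermediateField.adjoin k (Set.range
      (Sum.elim (fun q => ξ (Sum.inl q))
      (fun _ : Unit => ξ (Sum.inr (Sum.inl ()))))) := by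
    intro x
    rw [← hK₁]
    exact x.2
  clear hK₁
  exact geoW2 y d h Ψ hm hΨ T hT hsep M hJM hB hM n hn hdeg ξ hξ
    K₁ hk₁ (fun q => ⟨_, hmemY q⟩) (fun q => rfl)
    ⟨_, hmemt⟩ rfl (fun q i => ⟨_, hkcm q i⟩) (fun q i => rfl) hθ

/-- The class of an automorphism which fixes all parameters is trivial. -/
theorem cls [YData y] (hG3 : 3 ≤ Fintype.card G) (d : Dat k G Q (Fin J)) (h : GD y d)
    (Ψ : Polynomial (MvPolynomial (Fin (Fintype.card G)) k)) (hm : Ψ.Monic)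
    (hΨ : Ψ.map ((aeval fun i : Fin (Fintype.card G) => esymm G k (i + 1) :
      MvPolynomial (Fin (Fintype.card G)) k →ₐ[k] MvPolynomial G k) :
      MvPolynomial (Fin (Fintype.card G)) k →+* MvPolynomial G k) =
      ∏ q ∈ orb y, (Polynomial.X - Polynomial.C q))
    (T : ℕ) (hT : ∀ e, (Ψ.coeff e).totalDegree ≤ T)
    (M : ℕ) (hJM : J + 1 < M) (hB : T * (J + 1) < M) (hM : 2 + d.R.natDegree = M) (n : ℕ)
    (hn : 3 ≤ n) (hdeg : Ψ.natDegree * M = n + J)
    {N : Type} [Field N] [Algebra k N]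
    (ξ : Q ⊕ (Unit ⊕ (Option (Fin (Fintype.card G)) ⊕ Option (Fin (Fintype.card G)))) → N)
    (hξ : AlgebraicIndependent k ξ)
    (r : Fin n → N) (hr : Function.Injective r) (vv : Fin n → G → N)
    (hrw : ∀ i, Polynomial.aeval (r i) d.w ≠ 0) (hsol : ∀ i, SolP y (PX y d ξ) (r i) (vv i))
    (γ₀ : N →ₐ[k] N) (hγv : ∀ v, γ₀ (ξ v) = ξ v) (x : Wr G n)
    (hx : ∀ i g, γ₀ (vv i g) = vv (x.right i) (x.left (x.right i) * g)) :
    ∏ i, Abelianization.of (x.left i) = 1 := by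
  obtain ⟨K₁, hK₁⟩ : ∃ K₁ : IntermediateField k N, K₁ = IntermediateField.adjoin k (Set.range
      (Sum.elim (fun q => ξ (Sum.inl q)) (fun _ : Unit => ξ (Sum.inr (Sum.inl ()))))) :=
    ⟨_, rfl⟩
  have hmemY : ∀ q, ξ (Sum.inl q) ∈ K₁ := by
    intro q
    rw [hK₁]
    exact IntermediateField.subset_adjoin _ _ ⟨Sum.inl q, rfl⟩
  have hmemt : ξ (Sum.inr (Sum.inl ())) ∈ K₁ := by
    rw [hK₁]
    exact IntermediateField.subset_adjoin _ _ ⟨Sum.inr (), rfl⟩
  have hkcm : ∀ q i, Polynomial.aeval (ξ (Sum.inl q)) (kp y d.l (d.hh q) (d.ζ q) d.e i) ∈ K₁ := by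
    intro q i
    exact Algebra.adjoin_le (S := K₁.toSubalgebra) (Set.singleton_subset_iff.2 (hmemY q))
      (Polynomial.aeval_mem_adjoin_singleton _ _)
  have hθ : AlgebraicIndependent K₁ (fun i => ξ (Sum.inr (Sum.inr i))) := by
    have h1 := indep_split _ hξ
    rw [hK₁]
    exact h1
  have hk₁ : ∀ x : K₁, algebraMap K₁ N x ∈ IntermediateField.adjoin k (Set.range
      (Sum.elim (fun q => ξ (Sum.inl q))
      (fun _ : Unit => ξ (Sum.inr (Sum.inl ()))))) := by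
    intro x
    rw [← hK₁]
    exact x.2
  clear hK₁
  exact cls2 y hG3 d h Ψ hm hΨ T hT M hJM hB hM n hn hdeg ξ (fun q => hξ.transcendental _)
    K₁ hk₁ ⟨_, hmemt⟩ rfl (fun q i => ⟨_, hkcm q i⟩) (fun q i => rfl) hθ r hr vv hrw hsol γ₀ hγv
    x hx

end geoc

end Pool.Agent.H391R2.T4.IGW
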