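import Mathlib
import Pool.Agent.H391R2.FnC
import Pool.Agent.Y793.Stm

set_option autoImplicit false

/-!
The commutator subgroup of `G ≀ S_n`.
-/

namespace Pool.Agent.R367.IG

open Pool.Agent.H391R2 Pool.Agent.Y793
open scoped commutatorElement

variable {G : Type} [Group G] {n : ℕ}

/-- The elements of trivial class and sign. -/
noncomputable def Ev (G : Type) [Group G] (n : ℕ) : Subgroup (Wr G n) :=
  (wcls G n).ker ⊓ AWr G n

theorem mem_Ev (x : Wr G n) : x ∈ Ev G n ↔
    ∏ i, Abelianization.of (x.left i) = 1 ∧ Equiv.Perm.sign x.right = 1 := Iff.rfl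

instance ev_normal : (Ev G n).Normal := by
  unfold Ev AWr
  infer_instance

theorem Tw_one (a b : Fin n) : Tw a b (1 : G) = SemidirectProduct.inr (Equiv.swap a b) := by
  apply SemidirectProduct.ext
  · simp [Tw]
  · simp [Tw]

theorem delta_mem (k l : Fin n) (u : G) :
    (SemidirectProduct.inl (Pi.mulSingle k u * Pi.mulSingle l u⁻¹) : Wr G n) ∈ Ev G n := by
  classical
  rw [mem_Ev]
  constructor
  · change ∏ i, Abelianization.of ((Pi.mulSingle k u * Pi.mulSingle l u⁻¹ : Fin n → G) i) = 1
    simp only [Pi.mul_apply, map_mul, Finset.prod_mul_distrib]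
    rw [Finset.prod_eq_single k (fun i _ h => by rw [Pi.mulSingle_eq_of_ne h, map_one])
      (fun h => absurd (Finset.mem_univ _) h),
      Finset.prod_eq_single l (fun i _ h => by rw [Pi.mulSingle_eq_of_ne h, map_one])
      (fun h => absurd (Finset.mem_univ _) h), Pi.mulSingle_eq_same, Pi.mulSingle_eq_same,
      map_inv, mul_inv_cancel]
  · rw [SemidirectProduct.right_inl, map_one]

theorem inr_mem (σ : Equiv.Perm (Fin n)) (hσ : Equiv.Perm.sign σ = 1) :
    (SemidirectProduct.inr σ : Wr G n) ∈ Ev G n := by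
  rw [mem_Ev]
  constructor
  · refine Finset.prod_eq_one fun i _ => ?_
    rw [SemidirectProduct.left_inr, Pi.one_apply, map_one]
  · rw [SemidirectProduct.right_inr]
    exact hσ

theorem inr_comm (hn : 5 ≤ n) (σ : Equiv.Perm (Fin n)) (hσ : Equiv.Perm.sign σ = 1) :
    (SemidirectProduct.inr σ : Wr G n) ∈ ⁅Ev G n, Ev G n⁆ := by
  have hinr : ∀ τ : alternatingGroup (Fin n), (SemidirectProduct.inr τ.1 : Wr G n) ∈ Ev G n :=
    fun τ => inr_mem τ.1 (Equiv.Perm.mem_alternatingGroup.1 τ.2)
  have hT : (⊤ : Subgroup (alternatingGroup (Fin n))) ≤ ⁅Ev G n, Ev G n⁆.comap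
      ((SemidirectProduct.inr : Equiv.Perm (Fin n) →* Wr G n).comp
        (alternatingGroup (Fin n)).subtype) := by
    rw [← commutator_alternatingGroup_eq_top (by simpa using hn),
      commutator_def, Subgroup.commutator_le]
    intro u _ v _
    rw [Subgroup.mem_comap, map_commutatorElement]
    exact Subgroup.commutator_mem_commutator (hinr u) (hinr v)
  exact hT (Subgroup.mem_top ⟨σ, Equiv.Perm.mem_alternatingGroup.2 hσ⟩)

theorem delta_comm (hn : 5 ≤ n) (p l : Fin n) (hpl : p ≠ l) (u : G) :
    (SemidirectProduct.inl (Pi.mulSingle p u * Pi.mulSingle l u⁻¹) : Wr G n) ∈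
      ⁅Ev G n, Ev G n⁆ := by
  classical
  obtain ⟨k, hk⟩ : ∃ k : Fin n, k ∉ ({p, l} : Finset (Fin n)) := by
    have h1 : ({p, l} : Finset (Fin n)).card < (Finset.univ : Finset (Fin n)).card := by
      rw [Finset.card_univ, Fintype.card_fin]
      exact lt_of_le_of_lt Finset.card_le_two (by omega)
    obtain ⟨r, -, hr⟩ := Finset.exists_mem_notMem_of_card_lt_card h1
    exact ⟨r, hr⟩
  obtain ⟨s, hs⟩ : ∃ s : Fin n, s ∉ ({p, l, k} : Finset (Fin n)) := by
    have h1 : ({p, l, k} : Finset (Fin n)).card < (Finset.univ : Finset (Fin n)).card := by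
      rw [Finset.card_univ, Fintype.card_fin]
      exact lt_of_le_of_lt Finset.card_le_three (by omega)
    obtain ⟨r, -, hr⟩ := Finset.exists_mem_notMem_of_card_lt_card h1
    exact ⟨r, hr⟩
  simp only [Finset.mem_insert, Finset.mem_singleton, not_or] at hk hs
  obtain ⟨hkp, hkl⟩ := hk
  obtain ⟨hsp, hsl, hsk⟩ := hs
  let c : Equiv.Perm (Fin n) := Equiv.swap s p * Equiv.swap l s
  have hc : Equiv.Perm.sign c = 1 := by
    rw [map_mul, Equiv.Perm.sign_swap hsp, Equiv.Perm.sign_swap (Ne.symm hsl)]
    rfl
  have hcl : c l = p := by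
    change Equiv.swap s p (Equiv.swap l s l) = p
    rw [Equiv.swap_apply_left, Equiv.swap_apply_left]
  have hck : c k = k := by
    change Equiv.swap s p (Equiv.swap l s k) = k
    rw [Equiv.swap_apply_of_ne_of_ne hkl (Ne.symm hsk), Equiv.swap_apply_of_ne_of_ne
      (Ne.symm hsk) hkp]
  have hinv : ∀ i j : Fin n, c⁻¹ i = j ↔ i = c j := by
    intro i j
    constructor
    · rintro rfl
      simp
    · rintro rfl
      simp
  have h1 : (SemidirectProduct.inl (Pi.mulSingle p u * Pi.mulSingle l u⁻¹) : Wr G n) =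
      ⁅(SemidirectProduct.inl (Pi.mulSingle k u * Pi.mulSingle l u⁻¹) : Wr G n),
        SemidirectProduct.inr c⁆ := by
    rw [commutatorElement_def]
    apply SemidirectProduct.ext
    · funext i
      rw [wr_mul_left, wr_mul_left, wr_mul_left, SemidirectProduct.left_inl, ← map_inv, ← map_inv,
        SemidirectProduct.left_inl, SemidirectProduct.left_inr, SemidirectProduct.left_inr,
        SemidirectProduct.right_inl]
      simp only [inv_one, Equiv.Perm.coe_one, id_eq, Pi.one_apply, mul_one, Pi.mul_apply,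
        Pi.inv_apply, wr_mul_right, SemidirectProduct.right_inl, SemidirectProduct.right_inr,
        one_mul]
      have hm : ∀ j v, (Pi.mulSingle j v : Fin n → G) (c⁻¹ i) =
          if i = c j then v else 1 := by
        intro j v
        by_cases hij : i = c j
        · rw [if_pos hij, (hinv i j).2 hij, Pi.mulSingle_eq_same]
        · rw [if_neg hij, Pi.mulSingle_eq_of_ne (fun h => hij ((hinv i j).1 h))]
      have hm' : ∀ j v, (Pi.mulSingle j v : Fin n → G) i =
          if i = j then v else 1 := by
        intro j v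
        by_cases hij : i = j
        · rw [if_pos hij, hij, Pi.mulSingle_eq_same]
        · rw [if_neg hij, Pi.mulSingle_eq_of_ne hij]
      have hm'' : ∀ j v, (Pi.mulSingle j v : Fin n → G) ((Equiv.symm c) i) =
          if i = c j then v else 1 := hm
      simp only [hm, hm'', hm', hcl, hck]
      by_cases hil : i = l
      · subst hil
        simp [hm'', hcl, hck, Ne.symm hpl, Ne.symm hkl, hpl, hkl]
      · by_cases hik : i = k
        · subst hik
          simp [hm'', hcl, hck, hkp, hkl, Ne.symm hkp, Ne.symm hkl]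
        · by_cases hip : i = p
          · subst hip
            simp [hm'', hcl, hck, hpl, hkp, hkl, Ne.symm hkp, Ne.symm hpl, Ne.symm hkl]
          · simp [hm'', hcl, hck, hil, hik, hip]
    · simp [wr_mul_right, SemidirectProduct.inv_right]
  rw [h1]
  exact Subgroup.commutator_mem_commutator (delta_mem k l u) (inr_mem c hc)

theorem ev_le (hn : 5 ≤ n) : Ev G n ≤ ⁅Ev G n, Ev G n⁆ := by
  classical
  let N : Subgroup (Wr G n) := ⁅Ev G n, Ev G n⁆
  have hNn : N.Normal := Subgroup.commutator_normal _ _
  have hNE : N ≤ Ev G n := Subgroup.commutator_le_left _ _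
  let a : Fin n := ⟨0, by omega⟩
  let b : Fin n := ⟨1, by omega⟩
  have hab : a ≠ b := by
    intro h
    have := congrArg Fin.val h
    simp [a, b] at this
  let t : Wr G n := SemidirectProduct.inr (Equiv.swap a b)
  have htt : t * t = 1 := by
    change (SemidirectProduct.inr (Equiv.swap a b) : Wr G n) * SemidirectProduct.inr _ = 1
    rw [← map_mul, Equiv.swap_mul_self, map_one]
  have hti : t⁻¹ = t := inv_eq_of_mul_eq_one_left htt
  let H : Subgroup (Wr G n) :=
    { carrier := {w | w ∈ N ∨ w * t ∈ N}
      mul_mem' := by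
        rintro x y (hx | hx) (hy | hy)
        · exact Or.inl (N.mul_mem hx hy)
        · right
          have := N.mul_mem hx hy
          rwa [← mul_assoc] at this
        · right
          have h1 := N.mul_mem hx (hNn.conj_mem y hy t⁻¹)
          have h2 : x * t * (t⁻¹ * y * t⁻¹⁻¹) = x * y * t := by group
          rwa [h2] at h1
        · left
          have h1 := N.mul_mem hx (hNn.conj_mem _ hy t⁻¹)
          have h2 : x * t * (t⁻¹ * (y * t) * t⁻¹⁻¹) = x * y * (t * t) := by group
          rwa [h2, htt, mul_one] at h1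
      one_mem' := Or.inl N.one_mem
      inv_mem' := by
        rintro x (hx | hx)
        · exact Or.inl (N.inv_mem hx)
        · right
          have h1 := hNn.conj_mem _ (N.inv_mem hx) t
          have h2 : t * (x * t)⁻¹ * t⁻¹ = x⁻¹ * t⁻¹ := by group
          rwa [h2, hti] at h1 }
  have hH : ∀ w, w ∈ H ↔ (w ∈ N ∨ w * t ∈ N) := fun w => Iff.rfl
  intro w hw
  have hw' := (mem_Ev w).1 hw
  have h1 := wr_gen (by omega) H (fun k l hkl u => by
    rw [hH]
    right
    have h2 : Tw k l u * t = SemidirectProduct.inl (Pi.mulSingle k u * Pi.mulSingle l u⁻¹) *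
        SemidirectProduct.inr (Equiv.swap k l * Equiv.swap a b) := by
      have h3 : (Tw k l u : Wr G n) = SemidirectProduct.inl
          (Pi.mulSingle k u * Pi.mulSingle l u⁻¹) * SemidirectProduct.inr (Equiv.swap k l) :=
        (SemidirectProduct.inl_left_mul_inr_right (Tw k l u)).symm
      have h4 : (SemidirectProduct.inr (Equiv.swap k l * Equiv.swap a b) : Wr G n) =
          SemidirectProduct.inr (Equiv.swap k l) * t := map_mul _ _ _
      rw [h3, mul_assoc, h4]
    rw [h2]
    refine N.mul_mem (delta_comm hn k l hkl u) (inr_comm hn _ ?_)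
    rw [map_mul, Equiv.Perm.sign_swap hkl, Equiv.Perm.sign_swap hab]
    rfl) w hw'.1
  rcases (hH w).1 h1 with h2 | h2
  · exact h2
  · exfalso
    have h3 := ((mem_Ev _).1 (hNE h2)).2
    rw [wr_mul_right, map_mul, hw'.2, one_mul] at h3
    change Equiv.Perm.sign (SemidirectProduct.inr (Equiv.swap a b) : Wr G n).right = 1 at h3
    rw [SemidirectProduct.right_inr, Equiv.Perm.sign_swap hab] at h3
    exact absurd h3 (by decide)

/-- The commutator subgroup of the wreath product. -/
theorem ev_eq (hn : 5 ≤ n) : commutator (Wr G n) = Ev G n := by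
  apply le_antisymm
  · rw [Ev, le_inf_iff]
    constructor
    · exact Abelianization.commutator_subset_ker (wcls G n)
    · exact Abelianization.commutator_subset_ker (Equiv.Perm.sign.comp SemidirectProduct.rightHom)
  · refine (ev_le hn).trans ?_
    rw [commutator_def]
    exact Subgroup.commutator_mono le_top le_top

theorem perf_of_le {A : Type} [Group A] (E : Subgroup A) (h : E ≤ ⁅E, E⁆) :
    commutator E = ⊤ := by
  rw [eq_top_iff]
  rintro ⟨w, hw⟩ _
  have h1 := h hw
  rw [← Subgroup.map_subtype_commutator] at h1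
  obtain ⟨v, hv, hvw⟩ := h1
  have : v = ⟨w, hw⟩ := Subtype.ext hvw
  rw [← this]
  exact hv

theorem perf_equiv {A B : Type} [Group A] [Group B] (e : A ≃* B) (h : commutator A = ⊤) :
    commutator B = ⊤ := by
  rw [commutator_def] at h ⊢
  have h1 := Subgroup.map_commutator (⊤ : Subgroup A) ⊤ (e : A →* B)
  rw [h, Subgroup.map_top_of_surjective _ e.surjective] at h1
  exact h1.symm

/-- The even elements of trivial class. -/
noncomputable def PEv (G : Type) [Group G] (n : ℕ) : Subgroup (wcls G n).ker :=
  (Ev G n).subgroupOf (wcls G n).ker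

/-- The even elements of trivial class form the commutator subgroup. -/
noncomputable def pevEquiv (hn : 5 ≤ n) : PEv G n ≃* commutator (Wr G n) :=
  (Subgroup.subgroupOfEquivOfLe (inf_le_left : Ev G n ≤ (wcls G n).ker)).trans
    (MulEquiv.subgroupCongr (ev_eq hn).symm)

theorem comm_perf (hn : 5 ≤ n) : commutator (commutator (Wr G n)) = ⊤ :=
  perf_equiv (MulEquiv.subgroupCongr (ev_eq hn).symm) (perf_of_le _ (ev_le hn))

theorem pev_perf (hn : 5 ≤ n) : commutator (PEv G n) = ⊤ :=
  perf_equiv (pevEquiv hn).symm (comm_perf hn)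

theorem pev_index (hn : 5 ≤ n) : (PEv G n).index = 2 := by
  let s : (wcls G n).ker →* ℤˣ :=
    (Equiv.Perm.sign.comp SemidirectProduct.rightHom).comp (wcls G n).ker.subtype
  have h1 : PEv G n = s.ker := by
    ext x
    change (x : Wr G n) ∈ Ev G n ↔ Equiv.Perm.sign (x : Wr G n).right = 1
    rw [mem_Ev]
    exact ⟨fun h => h.2, fun h => ⟨x.2, h⟩⟩
  rw [h1, Subgroup.index_ker]
  have h2 : s.range = ⊤ := by
    rw [MonoidHom.range_eq_top]
    intro e
    have hnt : Nontrivial (Fin n) := Fin.nontrivial_iff_two_le.2 (by omega)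
    obtain ⟨σ, hσ⟩ := Equiv.Perm.sign_surjective (Fin n) e
    refine ⟨⟨SemidirectProduct.inr σ, ?_⟩, ?_⟩
    · rw [MonoidHom.mem_ker, wcls_apply]
      refine Finset.prod_eq_one fun i _ => ?_
      rw [SemidirectProduct.left_inr, Pi.one_apply, map_one]
    · change Equiv.Perm.sign (SemidirectProduct.inr σ : Wr G n).right = e
      rw [SemidirectProduct.right_inr, hσ]
  rw [h2, Nat.card_congr Subgroup.topEquiv.toEquiv]
  simp

end Pool.Agent.R367.IG
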