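import Mathlib
import Pool.Agent.R367.IG.GeoX
import Pool.Agent.H391R2.T4.Dt2
import Pool.Agent.H391R2.T4.Dt3
import Pool.Agent.Y203.J.Ari

set_option autoImplicit false

namespace Pool.Agent.H391R2.T4.IGW

open MvPolynomial

set_option linter.unusedSectionVars false

section bcd

variable {k k₁ : Type} [Field k] [Field k₁] [Algebra k k₁] {G : Type} [Group G] [Fintype G]
variable (y : MvPolynomial G k) {J : ℕ}

/-- Base change of the data. -/
noncomputable def bcD (k₁ : Type) [Field k₁] [Algebra k k₁] (d : Dat k G Empty (Fin J)) :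
    Dat k₁ G Empty (Fin J) where
  l := fun g => algebraMap k k₁ (d.l g)
  c := algebraMap k k₁ d.c
  R := d.R.map (algebraMap k k₁)
  nd := fun a => algebraMap k k₁ (d.nd a)
  w := d.w.map (algebraMap k k₁)
  hh := fun q => q.elim
  ζ := fun q => q.elim
  e := d.e
  emb := fun q => q.elim

theorem PX_bc (d : Dat k G Empty (Fin J)) {E : Type} [CommRing E] [Algebra k E] [Algebra k₁ E]
    [IsScalarTower k k₁ E]
    (ξ : Empty ⊕ (Unit ⊕ (Option (Fin (Fintype.card G)) ⊕ Option (Fin (Fintype.card G)))) → E)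
    (i : Option (Fin (Fintype.card G))) : PX (bcy k₁ y) (bcD k₁ d) ξ i = PX y d ξ i := by
  unfold PX PP
  simp only [Finset.univ_eq_empty, Finset.sum_empty]
  have h1 := bsT_bc (k₁ := k₁) y (E := E) d.l (Polynomial.C (algebraMap k E d.c) *
    ((Polynomial.X ^ 2 - Polynomial.C (ξ (Sum.inr (Sum.inl ())))) * d.R.map (algebraMap k E))) i
  rw [← h1]
  have h2 : ∀ x : k, algebraMap k₁ E (algebraMap k k₁ x) = algebraMap k E x := fun x =>
    (IsScalarTower.algebraMap_apply k k₁ E x).symm
  have h3 : (algebraMap k₁ E).comp (algebraMap k k₁) = algebraMap k E :=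
    (IsScalarTower.algebraMap_eq k k₁ E).symm
  simp only [bcD, Polynomial.map_map, h2, h3]

theorem GD_bc [CharZero k] [CharZero k₁] (d : Dat k G Empty (Fin J)) (h : GD y d) :
    GD (bcy k₁ y) (bcD k₁ d) where
  hl := (algebraMap k k₁).injective.comp h.hl
  hδ := by
    classical
    intro q hq hne
    rw [orb_bcy] at hq
    obtain ⟨p, hp, rfl⟩ := Finset.mem_image.1 hq
    have h1 : p ≠ y := fun e => hne (by rw [e]; rfl)
    have h2 := h.hδ p hp h1
    change aeval (fun g => algebraMap k k₁ (d.l g)) _ - aeval (fun g => algebraMap k k₁ (d.l g)) _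
      ≠ 0
    unfold bcy
    rw [aeval_l_bc, aeval_l_bc, ← map_sub]
    exact (_root_.map_ne_zero _).2 h2
  hc := (_root_.map_ne_zero _).2 h.hc
  hR := h.hR.map _
  hR0 := by
    change (d.R.map (algebraMap k k₁)).eval 0 ≠ 0
    have h1 := Polynomial.eval_map_apply (f := algebraMap k k₁) (p := d.R) (x := (0 : k))
    rw [map_zero] at h1
    rw [h1]
    exact (_root_.map_ne_zero _).2 h.hR0
  hnd := (algebraMap k k₁).injective.comp h.hnd
  hndR := fun a => by
    change (d.R.map (algebraMap k k₁)).eval (algebraMap k k₁ (d.nd a)) = 0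
    rw [Polynomial.eval_map_apply, h.hndR, map_zero]
  hw := by
    change d.w.map (algebraMap k k₁) = ∏ a, (Polynomial.X - Polynomial.C (algebraMap k k₁ (d.nd a)))
    rw [h.hw, Polynomial.map_prod]
    simp only [Polynomial.map_sub, Polynomial.map_X, Polynomial.map_C]
  he0 := h.he0
  hhe := fun q => q.elim
  hζ := fun q => q.elim
  hemb := fun q => q.elim

end bcd

/-- The norm-one subgroup of the wreath product is a regular Galois group. -/
theorem reg_ker3 (K : Type) [Field K] [CharZero K] (G : Type) [Group G] [Fintype G]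
    (hG3 : 3 ≤ Fintype.card G) : ∃ n₀ : ℕ, ∀ n ≥ n₀, 3 ≤ n ∧ RegSol K K (wcls G n).ker 1 := by
  classical
  have := Fintype.ofFinite (K ≃ₐ[K] K)
  let K₀ := AlgebraicClosure K
  have hcK₀ : CharZero K₀ := charZero_of_injective_algebraMap (algebraMap K K₀).injective
  have hinj₀ : Function.Injective (algebraMap K K₀) := (algebraMap K K₀).injective
  obtain ⟨b, hb0, hb⟩ := exists_ker_elt K K (1 : (K ≃ₐ[K] K) →* MulAut G)
  obtain ⟨y, hy⟩ : ∃ y : MvPolynomial G K, y = yp K (1 : (K ≃ₐ[K] K) →* MulAut G) b := ⟨_, rfl⟩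
  have hYD : YData y := by
    rw [hy]
    exact yp_data _ b hb0 hb
  obtain ⟨Ψ, hm, hdeg, hΨ⟩ := exists_psi y
  have hm₀ : (bcP K₀ Ψ).Monic := hm.map _
  have hΨ₀ := bcP_psi (k₁ := K₀) y Ψ hΨ
  have hdeg₀ : (bcP K₀ Ψ).natDegree = Ψ.natDegree := bcP_natDegree Ψ
  obtain ⟨T, hT, hT₀⟩ : ∃ T : ℕ, (∀ e, (Ψ.coeff e).totalDegree ≤ T) ∧
      ∀ e, ((bcP K₀ Ψ).coeff e).totalDegree ≤ T := by
    have h1 : ∀ Φ : Polynomial (MvPolynomial (Fin (Fintype.card G)) K), ∃ T : ℕ,
        ∀ e, (Φ.coeff e).totalDegree ≤ T := by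
      intro Φ
      refine ⟨(Finset.range (Φ.natDegree + 1)).sup fun e => (Φ.coeff e).totalDegree, fun e => ?_⟩
      by_cases he : e ≤ Φ.natDegree
      · exact Finset.le_sup (f := fun e => (Φ.coeff e).totalDegree)
          (Finset.mem_range.2 (Nat.lt_succ_of_le he))
      · rw [Polynomial.coeff_eq_zero_of_natDegree_lt (not_le.1 he), totalDegree_zero]
        exact Nat.zero_le _
    obtain ⟨T, hT⟩ := h1 Ψ
    refine ⟨T, hT, fun e => ?_⟩
    unfold bcP
    rw [Polynomial.coeff_map]
    exact (Finset.sup_mono (MvPolynomial.support_map_subset _ _)).trans (hT e)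
  have hd0 : 0 < (orb y).card := Finset.card_pos.2 ⟨_, y_mem_orb y⟩
  -- the constants
  let P : MvPolynomial G K := (∏ p : G × G, if p.1 = p.2 then 1 else X p.1 - X p.2) *
    ∏ p ∈ (orb y) ×ˢ (orb y), if p.1 = p.2 then 1 else p.1 - p.2
  have hP : P ≠ 0 := by
    refine mul_ne_zero (Finset.prod_ne_zero_iff.2 fun p _ => ?_)
      (Finset.prod_ne_zero_iff.2 fun p _ => ?_)
    · by_cases h : p.1 = p.2
      · rw [if_pos h]
        exact one_ne_zero
      · rw [if_neg h]
        exact sub_ne_zero.2 fun h' => h (X_injective h')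
    · by_cases h : p.1 = p.2
      · rw [if_pos h]
        exact one_ne_zero
      · rw [if_neg h]
        exact sub_ne_zero.2 h
  obtain ⟨l, -, hl2⟩ := exists_l (K₀ := K) (1 : (K ≃ₐ[K] K) →* MulAut G) P hP
  have hl2' : aeval l P ≠ 0 := hl2
  have hlinj : Function.Injective l := by
    intro g g' hgg
    by_contra hne
    apply hl2'
    rw [map_mul, map_prod, Finset.prod_eq_zero (Finset.mem_univ (g, g')), zero_mul]
    simp only [if_neg hne, map_sub, aeval_X, hgg, sub_self]
  have hlδ : ∀ q ∈ orb y, ∀ q' ∈ orb y, q ≠ q' → aeval l q ≠ aeval l q' := by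
    intro q hq q' hq' hne h
    apply hl2'
    rw [map_mul, map_prod, map_prod, Finset.prod_eq_zero
      (Finset.mem_product.2 ⟨hq, hq'⟩ : (q, q') ∈ (orb y) ×ˢ (orb y)), mul_zero]
    simp only [if_neg hne, map_sub, h, sub_self]
  obtain ⟨n₀, hn₀⟩ := numbers4 (orb y).card T 0 hd0
  refine ⟨n₀, fun n hn => ?_⟩
  obtain ⟨hn3, J, M, hJM, hTM, hDM⟩ := hn₀ n hn
  rw [Nat.zero_add] at hJM hTM hDM
  refine ⟨hn3, ?_⟩
  obtain ⟨j', hj'⟩ : ∃ j', 2 + (J + j') = M := ⟨M - 2 - J, by omega⟩
  let R : Polynomial K := ∏ v : Fin (J + j'), (Polynomial.X - Polynomial.C ((v : ℕ) + 1 : K))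
  have hninj : ∀ m : ℕ, Function.Injective (fun v : Fin m => ((v : ℕ) + 1 : K)) := by
    intro m v v' h
    have h1 : ((v : ℕ) : K) = ((v' : ℕ) : K) := add_right_cancel h
    exact Fin.val_injective (Nat.cast_injective h1)
  have hRm : R.Monic := Polynomial.monic_prod_of_monic _ _ fun v _ => Polynomial.monic_X_sub_C _
  have hRd : R.natDegree = J + j' := by
    rw [Polynomial.natDegree_prod_of_monic _ _ fun v _ => Polynomial.monic_X_sub_C _]
    simp only [Polynomial.natDegree_X_sub_C, Finset.sum_const, Finset.card_univ, Fintype.card_fin,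
      smul_eq_mul, mul_one]
  have hRs : R.Separable := Polynomial.separable_prod_X_sub_C_iff.2 (hninj _)
  have hRs₀ : (R.map (algebraMap K K₀)).Separable := hRs.map
  obtain ⟨B, hB, hBc⟩ := sep_c ((orb (bcy K₀ y)).erase (bcy K₀ y))
    (fun q => aeval (fun g => algebraMap K K₀ (l g)) q -
      aeval (fun g => algebraMap K K₀ (l g)) (bcy K₀ y))
    (fun q hq => by
      have hq' := Finset.mem_of_mem_erase hq
      rw [orb_bcy] at hq'
      obtain ⟨p, hp, rfl⟩ := Finset.mem_image.1 hq'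
      unfold bcy
      rw [aeval_l_bc, aeval_l_bc, ← map_sub]
      refine (_root_.map_ne_zero _).2 (sub_ne_zero.2 (hlδ p hp y (y_mem_orb y) ?_))
      intro e
      exact Finset.ne_of_mem_erase hq (by rw [e]; rfl))
    (fun q hq q' hq' hne h => by
      have h1 := Finset.mem_of_mem_erase hq
      have h1' := Finset.mem_of_mem_erase hq'
      rw [orb_bcy] at h1 h1'
      obtain ⟨p, hp, rfl⟩ := Finset.mem_image.1 h1
      obtain ⟨p', hp', rfl⟩ := Finset.mem_image.1 h1'
      have h2 := sub_left_injective h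
      simp only [aeval_l_bc] at h2
      exact hlδ p hp p' hp' (fun e => hne (by rw [e])) ((algebraMap K K₀).injective h2))
    (R.map (algebraMap K K₀)) hRs₀ (hRm.map _).ne_zero
  obtain ⟨c, hc0, hcB⟩ : ∃ c : K, c ≠ 0 ∧ algebraMap K K₀ c ∉ B := by
    have hinf : Infinite K := inferInstance
    obtain ⟨cc, -, hcc⟩ := exists_nat_avoid K ({0} ∪ (algebraMap K K₀) ⁻¹' B)
      ((Set.finite_singleton _).union (hB.preimage hinj₀.injOn))
    exact ⟨cc 0, fun h => hcc 0 (Or.inl h), fun h => hcc 0 (Or.inr h)⟩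
  let d : Dat K G Empty (Fin J) :=
    { l := l
      c := c
      R := R
      nd := fun a => ((a : ℕ) + 1 : K)
      w := ∏ a : Fin J, (Polynomial.X - Polynomial.C ((a : ℕ) + 1 : K))
      hh := fun q => q.elim
      ζ := fun q => q.elim
      e := 1
      emb := fun q => q.elim }
  have hGD : GD y d :=
    { hl := hlinj
      hδ := fun q hq hne => sub_ne_zero.2 (hlδ q hq y (y_mem_orb y) hne)
      hc := hc0
      hR := hRm
      hR0 := by
        change R.eval 0 ≠ 0
        rw [Polynomial.eval_prod]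
        refine Finset.prod_ne_zero_iff.2 fun v _ => ?_
        simp only [Polynomial.eval_sub, Polynomial.eval_X, Polynomial.eval_C, zero_sub,
          neg_ne_zero]
        exact_mod_cast Nat.succ_ne_zero (v : ℕ)
      hnd := hninj _
      hndR := fun a => by
        change R.eval ((a : ℕ) + 1 : K) = 0
        rw [Polynomial.eval_prod]
        refine Finset.prod_eq_zero (Finset.mem_univ (Fin.castAdd j' a)) ?_
        rw [Polynomial.eval_sub, Polynomial.eval_X, Polynomial.eval_C, Fin.val_castAdd, sub_self]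
      hw := rfl
      he0 := Nat.one_pos
      hhe := fun q => q.elim
      hζ := fun q => q.elim
      hemb := fun q => q.elim }
  have hGD₀ : GD (bcy K₀ y) (bcD K₀ d) := GD_bc y d hGD
  have hRd₀ : (bcD K₀ d).R.natDegree = J + j' := by
    change (R.map (algebraMap K K₀)).natDegree = _
    rw [Polynomial.natDegree_map, hRd]
  obtain ⟨N, i1, i2, i3, ξ, hξ⟩ := exists_big K₀ (Empty ⊕ (Unit ⊕
    (Option (Fin (Fintype.card G)) ⊕ Option (Fin (Fintype.card G)))))
  let _ : Algebra K N := ((algebraMap K₀ N).comp (algebraMap K K₀)).toAlgebra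
  have hT1 : IsScalarTower K K₀ N := IsScalarTower.of_algebraMap_eq fun x => rfl
  obtain ⟨r, vv, hr, hrw, hsol, hvinj, hall, hgeo⟩ := geoW (k := K₀) (bcy K₀ y) (bcD K₀ d) hGD₀
    (bcP K₀ Ψ) hm₀ hΨ₀ T hT₀ (hBc _ ((_root_.map_ne_zero _).2 hc0) hcB) M hJM hTM
    (by rw [hRd₀]; exact hj') n hn3 (by rw [hdeg₀, hdeg]; exact hDM) ξ hξ
  have hPX : PX (bcy K₀ y) (bcD K₀ d) ξ = PX y d ξ := funext fun i => PX_bc y d ξ i
  have hw : ∀ s : N, Polynomial.aeval s (bcD K₀ d).w = Polynomial.aeval s d.w := by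
    intro s
    change Polynomial.aeval s (d.w.map (algebraMap K K₀)) = _
    exact Polynomial.aeval_map_algebraMap _ _ _
  rw [hPX] at hsol hall
  simp only [SolP_bcy] at hsol hall
  simp only [hw] at hrw hall
  have hξK : AlgebraicIndependent K ξ :=
    AlgebraicIndependent.restrictScalars (K := K₀) (algebraMap K K₀).injective hξ.1
  refine Pool.Agent.Y203.J.Ari.t_arith K K₀ N _ ξ hξ G n (wcls G n).ker r hr vv hvinj ?_ ?_
  · intro σ hσ
    have h1 : ∀ i, ∃ i', σ (r i) = r i' ∧ ∃ g, (fun x => σ (vv i x)) =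
        vv i' ∘ Equiv.mulLeft g := by
      intro i
      have h2 := SolP_map y (σ : N →ₐ[K] N) _ _ _ (hsol i)
      have h3 : (fun i => (PX y d ξ i).map ((σ : N →ₐ[K] N) : N →+* N)) = PX y d ξ := by
        funext i
        rw [PX_map y d (σ : N →ₐ[K] N) ξ i]
        congr 1
        funext v
        exact hσ v
      rw [h3] at h2
      refine hall _ _ h2 ?_
      have h4 := Polynomial.aeval_algHom_apply (σ : N →ₐ[K] N) (r i) d.w
      change Polynomial.aeval ((σ : N →ₐ[K] N) (r i)) d.w ≠ 0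
      rw [h4]
      exact (_root_.map_ne_zero _).2 (hrw i)
    choose p hp g hg using h1
    have hpinj : Function.Injective p := by
      intro i j hij
      apply hr
      apply σ.injective
      rw [hp, hp, hij]
    let π : Equiv.Perm (Fin n) := Equiv.ofBijective p (Finite.injective_iff_bijective.1 hpinj)
    have hact : ∀ i, σ (r i) = r (π i) ∧ ∀ x, σ (vv i x) = vv (π i) (g (π.symm (π i)) * x) := by
      intro i
      refine ⟨hp i, fun x => ?_⟩
      rw [Equiv.symm_apply_apply]
      exact congrFun (hg i) x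
    refine ⟨⟨fun j => g (π.symm j), π⟩, ?_, hact⟩
    rw [MonoidHom.mem_ker, wcls_apply]
    exact cls y hG3 d hGD Ψ hm hΨ T hT M hJM hTM (by change 2 + R.natDegree = M; rw [hRd]; exact hj')
      n hn3 (by rw [hdeg]; exact hDM) ξ hξK r hr vv hrw hsol (σ : N →ₐ[K] N) hσ
      ⟨fun j => g (π.symm j), π⟩ (fun i g => (hact i).2 g)
  · intro x hx
    rw [MonoidHom.mem_ker, wcls_apply] at hx
    exact hgeo x hx

end Pool.Agent.H391R2.T4.IGW
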