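import Mathlib
import Pool.Agent.R367.IG.Reg
import Pool.Agent.R367.IG.Grp
import Pool.Agent.Y793.Fin

set_option autoImplicit false

namespace Pool.Agent.R367.IG

open Pool.Agent.H391R2 Pool.Agent.H391R2.T4 Pool.Agent.Y793

theorem wrMap_ker {G H : Type} [Group G] [Group H] (f : G →* H) (n : ℕ) (x : Wr G n)
    (hx : x ∈ (wcls G n).ker) : wrMap f n x ∈ (wcls H n).ker := by
  rw [MonoidHom.mem_ker, wcls_apply] at hx ⊢
  have h1 := congrArg (Abelianization.map f) hx
  rw [map_prod, map_one] at h1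
  refine Eq.trans (Finset.prod_congr rfl fun i _ => ?_) h1
  rw [Abelianization.map_of]
  rfl

/-- The norm-one group is a regular Galois group. -/
theorem reg_ker (K : Type) [Field K] [CharZero K] (G : Type) [Group G] [Finite G] :
    ∃ n₀ : ℕ, ∀ n ≥ n₀, RegSol K K (wcls G n).ker 1 := by
  classical
  let C := Multiplicative (ZMod 3)
  have _ : Fintype G := Fintype.ofFinite G
  have _ : Fintype C := Fintype.ofFinite C
  have h3 : 3 ≤ Fintype.card (G × C) := by
    rw [Fintype.card_prod]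
    have h1 : Fintype.card C = 3 := by
      rw [← Nat.card_eq_fintype_card]
      exact (Nat.card_congr Multiplicative.toAdd).trans (Nat.card_zmod 3)
    rw [h1]
    have h2 : 0 < Fintype.card G := Fintype.card_pos
    omega
  obtain ⟨n₀, hn₀⟩ := IGW.reg_ker3 K (G × C) h3
  refine ⟨n₀, fun n hn => ?_⟩
  obtain ⟨-, h⟩ := hn₀ n hn
  let f : (wcls (G × C) n).ker →* (wcls G n).ker :=
    ((wrMap (MonoidHom.fst G C) n).comp (wcls (G × C) n).ker.subtype).codRestrict _
      (fun x => wrMap_ker _ n x.1 x.2)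
  refine RegSol.quot (L := K) (L' := K) 1 1 f ?_ ?_ ?_ h
  · intro x
    refine ⟨⟨wrMap (MonoidHom.inl G C) n x.1, wrMap_ker _ n x.1 x.2⟩, ?_⟩
    apply Subtype.ext
    apply SemidirectProduct.ext
    · funext i
      rfl
    · rfl
  · intro g
    apply AlgEquiv.ext
    intro x
    exact (AlgEquiv.commutes _ x).trans (AlgEquiv.commutes _ x).symm
  · intro ρ _
    refine ⟨1, map_one f, ?_⟩
    apply AlgEquiv.ext
    intro x
    exact (AlgEquiv.commutes _ x).trans (AlgEquiv.commutes _ x).symm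

theorem main_all (K : Type) [Field K] [CharZero K] (G : Type) [Group G] [Finite G] :
    ∃ n₀ : ℕ, ∀ n ≥ n₀, 5 ≤ n ∧ RegSol K K (wcls G n).ker 1 ∧ ∃ k₀ : ℕ, ∀ k ≥ k₀,
      RegSol K K (AWr (commutator (Wr G n)) (8 * k + 4)) 1 := by
  obtain ⟨n₀, hn₀⟩ := reg_ker K G
  refine ⟨n₀ + 5, fun n hn => ⟨by omega, hn₀ n (by omega), ?_⟩⟩
  have h5 : 5 ≤ n := by omega
  have hf : Finite (Wr G n) := finite_wr G n
  obtain ⟨k₀, hk₀⟩ := main K (wcls G n).ker (hn₀ n (by omega)) (PEv G n) (pev_index h5)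
    (pev_perf h5)
  exact ⟨k₀, fun k hk => regSol_congr K _ _ (aCongr (pevEquiv h5) _) (hk₀ k hk)⟩

end Pool.Agent.R367.IG
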