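import Mathlib
import Pool.Agent.R367.IG.SLB
import Pool.Agent.H391R2.T4.NtE

set_option autoImplicit false

/-!
Semilinear class theorem.
-/

namespace Pool.Agent.R367.IG

open MvPolynomial Pool.Agent.H391R2 Pool.Agent.H391R2.T4

set_option linter.unusedSectionVars false

section sem

variable {k : Type} [Field k] {G : Type} [Group G] [Fintype G] (y : MvPolynomial G k)

/-- Semilinear evaluation. -/
theorem aeval_semi' {f : k →+* k} {E E' : Type} [CommRing E] [Algebra k E] [CommRing E']
    [Algebra k E']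
    (σ : E →+* E') (hσ : ∀ a, σ (algebraMap k E a) = algebraMap k E' (f a)) (v : G → E)
    (p : MvPolynomial G k) : σ (aeval v p) = aeval (fun g => σ (v g)) (MvPolynomial.map f p) := by
  rw [MvPolynomial.aeval_def, MvPolynomial.aeval_def, MvPolynomial.eval₂_map,
    MvPolynomial.hom_eval₂]
  congr 1
  apply RingHom.ext
  intro a
  exact hσ a

theorem tv_semi {f : k →+* k} {α : MulAut G} (h : rename α (MvPolynomial.map f y) = y)
    (i : Option (Fin (Fintype.card G))) :
    rename α (MvPolynomial.map f (tv y i)) = tv y i := by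
  cases i with
  | none => exact h
  | some i =>
    change rename α (MvPolynomial.map f (esymm G k (i + 1))) = esymm G k (i + 1)
    rw [MvPolynomial.map_esymm]
    exact MvPolynomial.rename_esymm G k _ α.toEquiv

theorem SolP_semi {f : k →+* k} {α : MulAut G} (h : rename α (MvPolynomial.map f y) = y)
    {E E' : Type} [CommRing E] [Algebra k E] [CommRing E'] [Algebra k E'] (σ : E →+* E')
    (hσ : ∀ a, σ (algebraMap k E a) = algebraMap k E' (f a))
    (P : Option (Fin (Fintype.card G)) → Polynomial E) (s : E) (v : G → E)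
    (hs : SolP y P s v) : SolP y (fun i => (P i).map σ) (σ s) (fun g => σ (v (α⁻¹ g))) := by
  intro i
  rw [Polynomial.eval_map_apply, ← hs i, aeval_semi' σ hσ]
  nth_rewrite 1 [← tv_semi y h i]
  rw [aeval_rename]
  congr 1
  congr 1
  funext g
  change σ (v (α⁻¹ (α g))) = σ (v g)
  rw [MulAut.inv_apply_self]

end sem

section nte

variable {k K : Type} [Field k] [Field K] [Algebra k K] {G : Type} [Group G] [Fintype G]
  (y : MvPolynomial G k)

theorem norm_theoremS_aux [IsAlgClosed K] [CharZero K]
    (Ψ : Polynomial (MvPolynomial (Fin (Fintype.card G)) k))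
    (hΨ : Ψ.map ((aeval fun i : Fin (Fintype.card G) => esymm G k (i + 1) :
      MvPolynomial (Fin (Fintype.card G)) k →ₐ[k] MvPolynomial G k) :
      MvPolynomial (Fin (Fintype.card G)) k →+* MvPolynomial G k) =
      ∏ q ∈ orb y, (Polynomial.X - Polynomial.C q))
    (P : Option (Fin (Fintype.card G)) → Polynomial (Polynomial K)) {D : ℕ} (c₀ : K)
    (hc₀ : c₀ ≠ 0) (hdeg : (PhiP Ψ P).natDegree = D)
    (hlc : (PhiP Ψ P).leadingCoeff = Polynomial.C c₀)
    (hstab : ∀ (x s : K) (v : G → K),
      SolP y (fun i => (P i).map (Polynomial.evalRingHom x)) s v →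
        ∀ g : G, v ∘ Equiv.mulLeft g = v → g = 1)
    (cl : (G → K) → Abelianization G) (hcl : IsCl cl)
    (t : Fin D → K) (ht : Function.Injective t) (u : Fin D → G → K)
    (hu : ∀ a, SolP y (fun i => (P i).map (Polynomial.evalRingHom 1)) (t a) (u a))
    (huinj : ∀ a, Function.Injective (u a))
    (huniq : ∀ a (w : G → K), SolP y (fun i => (P i).map (Polynomial.evalRingHom 1)) (t a) w →
      ∃ g : G, w = u a ∘ Equiv.mulLeft g)
    (K₀ Ω : Type) [Field K₀] [Algebra (Polynomial K) K₀] [IsFractionRing (Polynomial K) K₀]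
    [Field Ω] [Algebra K₀ Ω] [Algebra (Polynomial K) Ω] [IsScalarTower (Polynomial K) K₀ Ω]
    [Algebra k Ω] [IsScalarTower k (Polynomial K) Ω] [IsAlgClosed Ω] :
    ∃ E : Abelianization G, ∀ (f₀ : k →+* k) (γ : K →+* K) (α : MulAut G),
      (∀ a, γ (algebraMap k K a) = algebraMap k K (f₀ a)) →
      rename α (MvPolynomial.map f₀ y) = y →
      (∀ i, (P i).map (Polynomial.mapRingHom γ) = P i) →
      BaseC y Ψ P c₀ D cl γ α →
      ∀ (σ : Equiv.Perm (Fin D)) (f : Fin D → G),
        (∀ a g, γ (u a g) = u (σ a) (f a * α g)) →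
        ∏ a, Abelianization.of (f a) = abm α E * E⁻¹ := by
  classical
  have hinjΩ : Function.Injective (algebraMap (Polynomial K) Ω) := by
    rw [IsScalarTower.algebraMap_eq (Polynomial K) K₀ Ω]
    exact (algebraMap K₀ Ω).injective.comp (IsFractionRing.injective (Polynomial K) K₀)
  have hchar : CharZero K₀ :=
    charZero_of_injective_algebraMap (IsFractionRing.injective (Polynomial K) K₀)
  let CC := integralClosure (Polynomial K) Ω
  have hinjCC : Function.Injective (algebraMap (Polynomial K) CC) := by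
    intro p q hpq
    exact hinjΩ (congrArg (fun y : CC => (y : Ω)) hpq)
  have hfs' : FaithfulSMul (Polynomial K) CC := (faithfulSMul_iff_algebraMap_injective _ _).2 hinjCC
  -- roots
  set Φ := PhiP Ψ P with hΦ
  let PΩ : Option (Fin (Fintype.card G)) → Polynomial Ω := fun i =>
    (P i).map (algebraMap (Polynomial K) Ω)
  have hΦΩ : Φ.map (algebraMap (Polynomial K) Ω) = PhiP Ψ PΩ :=
    PhiP_map Ψ (IsScalarTower.toAlgHom k (Polynomial K) Ω) P
  have hdegΩ : (PhiP Ψ PΩ).natDegree = D := by
    rw [← hΦΩ, Polynomial.natDegree_map_eq_of_injective hinjΩ, hdeg]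
  have hlcΩ : (PhiP Ψ PΩ).leadingCoeff = algebraMap (Polynomial K) Ω (Polynomial.C c₀) := by
    rw [← hΦΩ, Polynomial.leadingCoeff_map_of_injective hinjΩ, hlc]
  obtain ⟨r, hr⟩ := exists_enum (PhiP Ψ PΩ) D hdegΩ
  rw [hlcΩ] at hr
  have hroot : ∀ a, (PhiP Ψ PΩ).eval (r a) = 0 := by
    intro a
    rw [hr, Polynomial.eval_mul, Polynomial.eval_prod]
    rw [Finset.prod_eq_zero (Finset.mem_univ a) (by simp), mul_zero]
  have hexv : ∀ a, ∃ v : G → Ω, SolP y PΩ (r a) v := fun a => exists_SolP y Ψ hΨ PΩ (r a) (hroot a)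
  choose v hv using hexv
  have hunit : IsUnit (Polynomial.C c₀) := Polynomial.isUnit_C.2 hc₀.isUnit
  have hrint : ∀ a, IsIntegral (Polynomial K) (r a) := by
    intro a
    refine ⟨Polynomial.C (Polynomial.C c₀⁻¹) * Φ, ?_, ?_⟩
    · rw [Polynomial.Monic, Polynomial.leadingCoeff_mul, Polynomial.leadingCoeff_C, hlc,
        ← Polynomial.C_mul, inv_mul_cancel₀ hc₀, Polynomial.C_1]
    · rw [Polynomial.eval₂_mul, ← Polynomial.eval_map, ← Polynomial.eval_map, hΦΩ, hroot, mul_zero]
  have hvint : ∀ a g, IsIntegral (Polynomial K) (v a g) := by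
    intro a g
    have hmem : ∀ i, (PΩ i).eval (r a) ∈ integralClosure (Polynomial K) Ω := by
      intro i
      simp only [PΩ]
      rw [Polynomial.eval_map_algebraMap]
      exact Algebra.adjoin_le (Set.singleton_subset_iff.2 (hrint a))
        (Polynomial.aeval_mem_adjoin_singleton _ _)
    have h3 : IsIntegral (integralClosure (Polynomial K) Ω) (v a g) := by
      refine ⟨Pc fun i' => (⟨_, hmem (some i')⟩ : integralClosure (Polynomial K) Ω),
        (Pc_natDegree _).1, ?_⟩
      rw [← Polynomial.eval_map, Pc_map]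
      exact SolP_Pc y PΩ (r a) (v a) (hv a) g
    exact isIntegral_trans _ h3
  let rC : Fin D → CC := fun a => ⟨r a, hrint a⟩
  let ιC : CC →ₐ[k] Ω := (integralClosure (Polynomial K) Ω).val.restrictScalars k
  have hιC : Function.Injective ιC := Subtype.val_injective
  have hPCC : (fun i => ((P i).map (algebraMap (Polynomial K) CC)).map (ιC : CC →+* Ω)) = PΩ := by
    funext i
    rw [Polynomial.map_map]
    rfl
  have hΦC : Φ.map (algebraMap (Polynomial K) CC) =
      Polynomial.C (algebraMap (Polynomial K) CC (Polynomial.C c₀)) *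
        ∏ a, (Polynomial.X - Polynomial.C (rC a)) := by
    apply Polynomial.map_injective (ιC : CC →+* Ω) hιC
    rw [Polynomial.map_map, Polynomial.map_mul, Polynomial.map_prod]
    simp only [Polynomial.map_sub, Polynomial.map_X, Polynomial.map_C]
    exact hΦΩ.trans hr
  -- specialisation of the factorisation
  have hfacx : ∀ (x : K) (φ : CC →+* K), (∀ p, φ (algebraMap (Polynomial K) _ p) = p.eval x) →
      PhiP Ψ (fun i => (P i).map (Polynomial.evalRingHom x)) =
        Polynomial.C c₀ * ∏ a, (Polynomial.X - Polynomial.C (φ (rC a))) := by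
    intro x φ hφ
    have h2 := congrArg (Polynomial.map φ) hΦC
    rw [Polynomial.map_map, Polynomial.map_mul, Polynomial.map_prod] at h2
    simp only [Polynomial.map_sub, Polynomial.map_X, Polynomial.map_C] at h2
    rw [hφ, Polynomial.eval_C] at h2
    rw [← h2]
    let ev : Polynomial K →ₐ[k] K := (Polynomial.aeval (x : K)).restrictScalars k
    have h3 := PhiP_map Ψ ev P
    have h4 : (ev : Polynomial K →+* K) = Polynomial.evalRingHom x := by
      apply RingHom.ext
      intro p
      change Polynomial.aeval (x : K) p = _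
      rw [Polynomial.coe_aeval_eq_eval]
      rfl
    rw [h4] at h3
    rw [← h3, hΦ]
    congr 1
    apply RingHom.ext
    intro p
    exact (hφ p).symm
  -- the place at one
  have hτ : ∀ φ : CC →+* K, (∀ p, φ (algebraMap (Polynomial K) _ p) = p.eval 1) →
      ∃ τ : Equiv.Perm (Fin D), ∀ a, φ (rC a) = t (τ a) := by
    intro φ hφ
    have h1 := hfacx 1 φ hφ
    have h2 : ∀ b, ∃ a, t b = φ (rC a) := by
      intro b
      have h3 := SolP_root y Ψ hΨ _ _ _ (hu b)
      rw [h1, Polynomial.eval_mul, Polynomial.eval_C, Polynomial.eval_prod, mul_eq_zero] at h3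
      have h4 := h3.resolve_left hc₀
      rw [Finset.prod_eq_zero_iff] at h4
      obtain ⟨a, -, ha⟩ := h4
      refine ⟨a, ?_⟩
      rw [Polynomial.eval_sub, Polynomial.eval_X, Polynomial.eval_C] at ha
      exact sub_eq_zero.1 ha
    choose b hb using h2
    have hbinj : Function.Injective b := by
      intro x y hxy
      apply ht
      rw [hb, hb, hxy]
    let β : Equiv.Perm (Fin D) := Equiv.ofBijective b (Finite.injective_iff_bijective.1 hbinj)
    refine ⟨β.symm, fun a => ?_⟩
    rw [hb]
    congr 2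
    exact (β.apply_symm_apply a).symm
  obtain ⟨φ₁, hφ₁⟩ := place_exists (C := CC) (1 : K)
  obtain ⟨τ₁, hτ₁⟩ := hτ φ₁ hφ₁
  have hrinj : Function.Injective r := by
    intro a b hab
    have h1 : rC a = rC b := Subtype.ext hab
    apply τ₁.injective
    apply ht
    rw [← hτ₁, ← hτ₁, h1]
  -- images of integral solutions
  have himg : ∀ (φ : CC →+* K) (x : K), (∀ p, φ (algebraMap (Polynomial K) _ p) = p.eval x) →
      ∀ a (w : G → CC), SolP y PΩ (r a) (fun g => (w g : Ω)) →
        SolP y (fun i => (P i).map (Polynomial.evalRingHom x)) (φ (rC a)) (fun g => φ (w g)) := by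
    intro φ x hφ a w hw
    apply sol_place y φ x hφ
    refine SolP_of_map y ιC hιC _ _ _ ?_
    rw [hPCC]
    exact hw
  have huniqΩ : ∀ a (w : G → Ω), SolP y PΩ (r a) w → ∃ g : G, w = v a ∘ Equiv.mulLeft g := by
    intro a w hw
    obtain ⟨π, rfl⟩ := exists_perm_of_esymm (k := k) (v a) w (fun i => (hv a (some i)).trans
      (hw (some i)).symm)
    let vC : G → CC := fun g => ⟨v a g, hvint a g⟩
    have h1 := himg φ₁ 1 hφ₁ a vC (hv a)
    have h2 := himg φ₁ 1 hφ₁ a (vC ∘ π) hw
    rw [hτ₁] at h1 h2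
    obtain ⟨g₁, hg₁⟩ := huniq _ _ h1
    obtain ⟨g₂, hg₂⟩ := huniq _ _ h2
    refine ⟨g₁⁻¹ * g₂, ?_⟩
    funext x
    have h3 : φ₁ (vC (π x)) = u (τ₁ a) (g₁ * π x) := congrFun hg₁ (π x)
    have h4 : φ₁ (vC (π x)) = u (τ₁ a) (g₂ * x) := congrFun hg₂ x
    rw [h3] at h4
    have h5 := huinj _ h4
    have h6 : π x = g₁⁻¹ * g₂ * x := by
      rw [mul_assoc, ← h5, inv_mul_cancel_left]
    change v a (π x) = v a (g₁⁻¹ * g₂ * x)
    rw [h6]
  have hvinj : ∀ a, Function.Injective (v a) := by
    intro a x y hxy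
    let vC : G → CC := fun g => ⟨v a g, hvint a g⟩
    have h1 := himg φ₁ 1 hφ₁ a vC (hv a)
    rw [hτ₁] at h1
    obtain ⟨g₁, hg₁⟩ := huniq _ _ h1
    have h2 : vC x = vC y := Subtype.ext hxy
    have h3 : φ₁ (vC x) = u (τ₁ a) (g₁ * x) := congrFun hg₁ x
    have h4 : φ₁ (vC y) = u (τ₁ a) (g₁ * y) := congrFun hg₁ y
    rw [h2, h4] at h3
    exact mul_left_cancel (huinj _ h3).symm
  -- the finite Galois extension
  let S : Finset Ω := (Finset.univ.image r) ∪ (Finset.univ.image fun q : Fin D × G => v q.1 q.2)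
  have hSint : ∀ x ∈ S, IsIntegral K₀ x := by
    intro x hx
    rcases Finset.mem_union.1 hx with hx | hx
    · obtain ⟨a, -, rfl⟩ := Finset.mem_image.1 hx
      exact (hrint a).tower_top
    · obtain ⟨q, -, rfl⟩ := Finset.mem_image.1 hx
      exact (hvint q.1 q.2).tower_top
  obtain ⟨M, iM1, iM2, iM3, iM4, j, hj⟩ := exists_galois' (F := K₀) S hSint
  have hr' : ∀ a : Fin D, ∃ y : M, j y = r a := fun a => hj _
    (Finset.mem_union_left _ (Finset.mem_image_of_mem _ (Finset.mem_univ a)))
  have hv' : ∀ (a : Fin D) (g : G), ∃ y : M, j y = v a g := fun a g => hj _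
    (Finset.mem_union_right _ (Finset.mem_image_of_mem (fun q : Fin D × G => v q.1 q.2)
      (Finset.mem_univ (a, g))))
  choose rM hrM using hr'
  choose vM hvM using hv'
  let _ : Algebra (Polynomial K) M := ((algebraMap K₀ M).comp (algebraMap (Polynomial K) K₀)).toAlgebra
  have hT1 : IsScalarTower (Polynomial K) K₀ M := IsScalarTower.of_algebraMap_eq fun x => rfl
  let _ : Algebra k M := ((algebraMap (Polynomial K) M).comp (algebraMap k (Polynomial K))).toAlgebra
  have hT2 : IsScalarTower k (Polynomial K) M := IsScalarTower.of_algebraMap_eq fun x => rfl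
  let jA : M →ₐ[Polynomial K] Ω := j.restrictScalars (Polynomial K)
  let jk : M →ₐ[k] Ω := jA.restrictScalars k
  have hjk : ∀ y, jk y = j y := fun y => rfl
  have hPM : (fun i => ((P i).map (algebraMap (Polynomial K) M)).map (jk : M →+* Ω)) = PΩ := by
    funext i
    rw [Polynomial.map_map]
    simp only [PΩ]
    congr 1
    apply RingHom.ext
    intro p
    exact jA.commutes p
  have hsolM : ∀ a, SolP y (fun i => (P i).map (algebraMap (Polynomial K) M)) (rM a) (vM a) := by
    intro a
    refine SolP_of_map y jk jk.injective _ _ _ ?_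
    rw [hPM]
    have h1 : jk ∘ (vM a) = v a := funext fun g => hvM a g
    rw [h1, hjk, hrM]
    exact hv a
  -- permutations
  have hpermG : ∀ (f₀ : k →+* k) (γ : K →+* K) (α : MulAut G),
      (∀ a, γ (algebraMap k K a) = algebraMap k K (f₀ a)) →
      rename α (MvPolynomial.map f₀ y) = y →
      (∀ i, (P i).map (Polynomial.mapRingHom γ) = P i) →
      ∀ η : M →+* Ω, (∀ p, η (algebraMap (Polynomial K) M p) =
          algebraMap (Polynomial K) Ω (p.map γ)) →
        ∃ (s : Equiv.Perm (Fin D)) (q : Fin D → G), ∀ a g,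
          η (vM a g) = j (vM (s a) (q a * α g)) := by
    intro f₀ γ α hγk hyα hγP η hη
    have hηk : ∀ c, η (algebraMap k M c) = algebraMap k Ω (f₀ c) := by
      intro c
      rw [IsScalarTower.algebraMap_apply k (Polynomial K) M, hη,
        IsScalarTower.algebraMap_apply k (Polynomial K) Ω]
      congr 1
      rw [Polynomial.algebraMap_apply, Polynomial.map_C, Polynomial.algebraMap_apply]
      congr 1
      exact hγk c
    have hPη : (fun i => ((P i).map (algebraMap (Polynomial K) M)).map η) = PΩ := by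
      funext i
      rw [Polynomial.map_map]
      have h1 : η.comp (algebraMap (Polynomial K) M) =
          (algebraMap (Polynomial K) Ω).comp (Polynomial.mapRingHom γ) := by
        apply RingHom.ext
        intro p
        exact hη p
      rw [h1, ← Polynomial.map_map, hγP]
    have hηsol : ∀ a, SolP y PΩ (η (rM a)) (fun g => η (vM a (α⁻¹ g))) := by
      intro a
      have h1 := SolP_semi y hyα η hηk _ _ _ (hsolM a)
      rw [hPη] at h1
      exact h1
    have h2 : ∀ a, ∃ b, η (rM a) = r b := by
      intro a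
      have h3 := SolP_root y Ψ hΨ _ _ _ (hηsol a)
      rw [hr, Polynomial.eval_mul, Polynomial.eval_C, Polynomial.eval_prod, mul_eq_zero] at h3
      have h4 := h3.resolve_left ((map_ne_zero_iff _ hinjΩ).2 (Polynomial.C_ne_zero.2 hc₀))
      rw [Finset.prod_eq_zero_iff] at h4
      obtain ⟨b, -, hb⟩ := h4
      refine ⟨b, ?_⟩
      rw [Polynomial.eval_sub, Polynomial.eval_X, Polynomial.eval_C] at hb
      exact sub_eq_zero.1 hb
    choose b hb using h2
    have hbinj : Function.Injective b := by
      intro x y hxy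
      apply hrinj
      rw [← hrM, ← hrM]
      congr 1
      apply η.injective
      rw [hb, hb, hxy]
    have h5 : ∀ a, ∃ g : G, ∀ y, η (vM a (α⁻¹ y)) = v (b a) (g * y) := by
      intro a
      have h6 := hηsol a
      rw [hb] at h6
      obtain ⟨g, hg⟩ := huniqΩ _ _ h6
      exact ⟨g, fun y => congrFun hg y⟩
    choose q hq using h5
    refine ⟨Equiv.ofBijective b (Finite.injective_iff_bijective.1 hbinj), q, fun a g => ?_⟩
    have h6 := hq a (α g)
    rw [MulAut.inv_apply_self] at h6
    rw [h6, hvM]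
    rfl
  obtain ⟨E, hE⟩ := nt_coreS y Ψ P c₀ hstab cl hcl u (fun a g hg => by
      have h1 := huinj a (congrFun hg 1)
      simpa using h1) (K₀ := K₀) (Ω := Ω) (M := M) j rM vM
    (fun a => by
      rw [← isIntegral_algHom_iff jA jA.injective]
      change IsIntegral (Polynomial K) (j (rM a))
      rw [hrM]
      exact hrint a)
    (fun a g => by
      rw [← isIntegral_algHom_iff jA jA.injective]
      change IsIntegral (Polynomial K) (j (vM a g))
      rw [hvM]
      exact hvint a g)
    (fun a x y hxy => by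
      apply hvinj a
      rw [← hvM, ← hvM, hxy]) hsolM
    (fun η hη => by
      obtain ⟨s, q, hsq⟩ := hpermG (RingHom.id k) (RingHom.id K) 1 (fun a => rfl) (by
        rw [MvPolynomial.map_id]
        change rename (1 : MulAut G) y = y
        exact rename_id_apply _) (fun i => by
        have h1 : Polynomial.mapRingHom (RingHom.id K) = RingHom.id _ := by
          apply RingHom.ext
          intro p
          exact Polynomial.map_id
        rw [h1, Polynomial.map_id]) η (fun p => by
        rw [hη, Polynomial.map_id])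
      exact ⟨s, q, hsq⟩)
    (fun φ hφ => by
      obtain ⟨τ, hτa⟩ := hτ φ hφ
      have h1 : ∀ a, ∃ g : G, ∀ y, φ ⟨v a y, hvint a y⟩ = u (τ a) (g * y) := by
        intro a
        have h2 := himg φ 1 hφ a (fun y => ⟨v a y, hvint a y⟩) (hv a)
        rw [hτa] at h2
        obtain ⟨g, hg⟩ := huniq _ _ h2
        exact ⟨g, fun y => congrFun hg y⟩
      choose e he using h1
      refine ⟨τ, e, fun a y z hz => ?_⟩
      rw [← he]
      congr 1
      apply Subtype.ext
      rw [hz, hvM])
    (fun φ hφ z hz => by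
      have h1 : z = rC := by
        funext a
        apply Subtype.ext
        rw [hz, hrM]
      rw [h1]
      exact hfacx 0 φ hφ)
  exact ⟨E, fun f₀ γ α hγk hyα hγP hbase σ f hσf =>
    hE γ α (hpermG f₀ γ α hγk hyα hγP) hbase σ f hσf⟩

/-- The semilinear norm theorem. -/
theorem norm_theoremS [IsAlgClosed K] [CharZero K]
    (Ψ : Polynomial (MvPolynomial (Fin (Fintype.card G)) k))
    (hΨ : Ψ.map ((aeval fun i : Fin (Fintype.card G) => esymm G k (i + 1) :
      MvPolynomial (Fin (Fintype.card G)) k →ₐ[k] MvPolynomial G k) :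
      MvPolynomial (Fin (Fintype.card G)) k →+* MvPolynomial G k) =
      ∏ q ∈ orb y, (Polynomial.X - Polynomial.C q))
    (P : Option (Fin (Fintype.card G)) → Polynomial (Polynomial K)) {D : ℕ} (c₀ : K)
    (hc₀ : c₀ ≠ 0) (hdeg : (PhiP Ψ P).natDegree = D)
    (hlc : (PhiP Ψ P).leadingCoeff = Polynomial.C c₀)
    (hstab : ∀ (x s : K) (v : G → K),
      SolP y (fun i => (P i).map (Polynomial.evalRingHom x)) s v →
        ∀ g : G, v ∘ Equiv.mulLeft g = v → g = 1)
    (cl : (G → K) → Abelianization G) (hcl : IsCl cl)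
    (t : Fin D → K) (ht : Function.Injective t) (u : Fin D → G → K)
    (hu : ∀ a, SolP y (fun i => (P i).map (Polynomial.evalRingHom 1)) (t a) (u a))
    (huinj : ∀ a, Function.Injective (u a))
    (huniq : ∀ a (w : G → K), SolP y (fun i => (P i).map (Polynomial.evalRingHom 1)) (t a) w →
      ∃ g : G, w = u a ∘ Equiv.mulLeft g) :
    ∃ E : Abelianization G, ∀ (f₀ : k →+* k) (γ : K →+* K) (α : MulAut G),
      (∀ a, γ (algebraMap k K a) = algebraMap k K (f₀ a)) →
      rename α (MvPolynomial.map f₀ y) = y →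
      (∀ i, (P i).map (Polynomial.mapRingHom γ) = P i) →
      BaseC y Ψ P c₀ D cl γ α →
      ∀ (σ : Equiv.Perm (Fin D)) (f : Fin D → G),
        (∀ a g, γ (u a g) = u (σ a) (f a * α g)) →
        ∏ a, Abelianization.of (f a) = abm α E * E⁻¹ :=
  norm_theoremS_aux y Ψ hΨ P c₀ hc₀ hdeg hlc hstab cl hcl t ht u hu huinj huniq
    (FractionRing (Polynomial K)) (AlgebraicClosure (FractionRing (Polynomial K)))

end nte

end Pool.Agent.R367.IG
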