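import Mathlib
import Pool.Agent.R367.IG.SLC
import Pool.Agent.H391R2.T4.NtF

set_option autoImplicit false

/-!
The solutions at zero.
-/

namespace Pool.Agent.R367.IG

open MvPolynomial Pool.Agent.H391R2 Pool.Agent.H391R2.T4

set_option linter.unusedSectionVars false

section cnt

variable {k K : Type} [Field k] [Field K] [Algebra k K] {G : Type} [Group G] [Fintype G]
  (y : MvPolynomial G k)

theorem abel_pow (x : Abelianization G) {M : ℕ} (h : Fintype.card G ∣ M) : x ^ M = 1 := by
  obtain ⟨g, rfl⟩ := QuotientGroup.mk_surjective x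
  obtain ⟨m, rfl⟩ := h
  change (Abelianization.of g) ^ (Fintype.card G * m) = 1
  rw [← map_pow, pow_mul, pow_card_eq_one, one_pow, map_one]

theorem baseC_of [IsAlgClosed K] [CharZero K] [YData y]
    (Ψ : Polynomial (MvPolynomial (Fin (Fintype.card G)) k))
    (hΨ : Ψ.map ((aeval fun i : Fin (Fintype.card G) => esymm G k (i + 1) :
      MvPolynomial (Fin (Fintype.card G)) k →ₐ[k] MvPolynomial G k) :
      MvPolynomial (Fin (Fintype.card G)) k →+* MvPolynomial G k) =
      ∏ q ∈ orb y, (Polynomial.X - Polynomial.C q))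
    (P : Option (Fin (Fintype.card G)) → Polynomial (Polynomial K))
    (base : Option (Fin (Fintype.card G)) → Polynomial k)
    (hP0 : (fun i => (P i).map (Polynomial.evalRingHom 0)) =
      fun i => (base i).map (algebraMap k K))
    (l : G → k) (hl : Function.Injective l)
    (hbase : ∀ i : Fin (Fintype.card G), base (some i) =
      Polynomial.C (aeval l (esymm G k (i + 1))))
    (hsepl : ∀ q ∈ orb y, ∀ q' ∈ orb y, aeval l q = aeval l q' → q = q')
    (M : ℕ) (hM0 : 0 < M) (hbM : (base none).natDegree = M) (hcM : Fintype.card G ∣ M)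
    (c₀ : K) (hc₀ : c₀ ≠ 0) (D : ℕ)
    (cl : (G → K) → Abelianization G) (hcl : IsCl cl) (γ : K →+* K) (α : MulAut G) :
    BaseC y Ψ P c₀ D cl γ α := by
  classical
  intro s w hw hfac
  rw [hP0] at hw hfac
  have hinj : Function.Injective (algebraMap k K) := (algebraMap k K).injective
  let B : Polynomial K := (base none).map (algebraMap k K)
  let lq : MvPolynomial G k → K := fun q => algebraMap k K (aeval l q)
  have hBd : ∀ c : K, (B - Polynomial.C c).natDegree = M := by
    intro c
    have h1 : B.natDegree = M := by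
      rw [Polynomial.natDegree_map]
      exact hbM
    rw [Polynomial.natDegree_sub_C, h1]
  have hB0 : ∀ c : K, B - Polynomial.C c ≠ 0 := by
    intro c h0
    have h1 := hBd c
    rw [h0, Polynomial.natDegree_zero] at h1
    omega
  have hlv : ∀ p : MvPolynomial G k, aeval (fun g => algebraMap k K (l g)) p = lq p := by
    intro p
    have h2 := comp_aeval_apply (f := l) (φ := Algebra.ofId k K) p
    exact h2.symm
  have hPhi : PhiP Ψ (fun i => (base i).map (algebraMap k K)) =
      ∏ q ∈ orb y, (B - Polynomial.C (lq q)) := by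
    apply Polynomial.funext
    intro x
    rw [PhiP_eval_prod y Ψ hΨ _ x (fun g => algebraMap k K (l g)) (fun i => by
      rw [hlv, hbase, Polynomial.map_C, Polynomial.eval_C]), Polynomial.eval_prod]
    refine Finset.prod_congr rfl fun q _ => ?_
    rw [hlv, Polynomial.eval_sub, Polynomial.eval_C]
  -- the solutions
  have hwπ : ∀ a, ∃ π : Equiv.Perm G, w a = fun g => algebraMap k K (l (π g)) := by
    intro a
    obtain ⟨π, hπ⟩ := exists_perm_of_esymm (k := k) (fun g => algebraMap k K (l g)) (w a)
      (fun i => by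
        have h3 := hw a (some i)
        change aeval (w a) (esymm G k (i + 1)) =
          Polynomial.eval (s a) ((base (some i)).map (algebraMap k K)) at h3
        rw [h3, hbase, Polynomial.map_C, Polynomial.eval_C]
        exact hlv _)
    exact ⟨π, hπ⟩
  choose π hπ using hwπ
  have hval : ∀ a, B.eval (s a) = lq (rename (π a) y) := by
    intro a
    have h3 : aeval (w a) y = B.eval (s a) := hw a none
    rw [← h3, hπ a, ← hlv, aeval_rename]
    rfl
  have hfree : ∀ σ : Equiv.Perm G, ∀ g : G,
      (fun x => algebraMap k K (l (σ x))) ∘ Equiv.mulLeft g =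
        (fun x => algebraMap k K (l (σ x))) → g = 1 := by
    intro σ g hg
    have h1 := congrFun hg 1
    have h2 := σ.injective (hl (hinj h1))
    simpa using h2
  let R : (G → K) → Abelianization G := fun v => cl (tws γ α v) * (abm α (cl v))⁻¹
  have hRinv : ∀ (v : G → K), (∀ g : G, v ∘ Equiv.mulLeft g = v → g = 1) → ∀ g : G,
      R (v ∘ Equiv.mulLeft g) = R v := by
    intro v hv g
    simp only [R]
    rw [tws_mulLeft, hcl _ (tws_free γ α v hv), hcl _ hv, map_mul, abm_of, mul_inv_rev]
    rw [mul_assoc, mul_inv_cancel_left]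
  have hex : ∀ q : MvPolynomial G k, ∃ σ : Equiv.Perm G, q ∈ orb y → rename σ y = q := by
    intro q
    by_cases hq : q ∈ orb y
    · obtain ⟨σ, hσ⟩ := (mem_orb y).1 hq
      exact ⟨σ, fun _ => hσ⟩
    · exact ⟨1, fun h => absurd h hq⟩
  choose ρ hρ using hex
  let gq : MvPolynomial G k → Abelianization G := fun q => R (fun x => algebraMap k K (l (ρ q x)))
  have hRq : ∀ (σ : Equiv.Perm G) (q : MvPolynomial G k), q ∈ orb y → rename σ y = q →
      R (fun x => algebraMap k K (l (σ x))) = gq q := by
    intro σ q hq hσ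
    have h1 : rename ((ρ q)⁻¹ * σ) y = y := by
      have h2 : rename (ρ q) (rename ((ρ q)⁻¹ * σ : Equiv.Perm G) y) = rename (ρ q) y := by
        have h4 : (ρ q : G → G) ∘ ((ρ q)⁻¹ * σ : Equiv.Perm G) = σ := by
          funext x
          exact (ρ q).apply_symm_apply (σ x)
        rw [rename_rename, h4, hσ, hρ q hq]
      exact rename_injective _ (ρ q).injective h2
    obtain ⟨g, hg⟩ := YData.stab (y := y) _ h1
    have h3 : (fun x => algebraMap k K (l (σ x))) =
        (fun x => algebraMap k K (l (ρ q x))) ∘ Equiv.mulLeft g := by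
      funext x
      change algebraMap k K (l (σ x)) = algebraMap k K (l (ρ q (Equiv.mulLeft g x)))
      rw [← hg]
      congr 2
      exact ((ρ q).apply_symm_apply (σ x)).symm
    rw [h3, hRinv _ (hfree _)]
  let Fn : K → Abelianization G := fun x =>
    if h : ∃ q ∈ orb y, B.eval x = lq q then gq h.choose else 1
  have hFn : ∀ x, ∀ q ∈ orb y, B.eval x = lq q → Fn x = gq q := by
    intro x q hq hx
    have h : ∃ q ∈ orb y, B.eval x = lq q := ⟨q, hq, hx⟩
    simp only [Fn]
    rw [dif_pos h]
    congr 1
    obtain ⟨h1, h2⟩ := h.choose_spec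
    exact hsepl _ h1 _ hq (hinj (h2.symm.trans hx))
  have hRF : ∀ a, R (w a) = Fn (s a) := by
    intro a
    have hq : rename (π a) y ∈ orb y := (mem_orb y).2 ⟨π a, rfl⟩
    rw [hFn (s a) _ hq (hval a), hπ a]
    exact hRq _ _ hq rfl
  -- the product over all roots
  have hroots1 : (PhiP Ψ (fun i => (base i).map (algebraMap k K))).roots =
      (Finset.univ : Finset (Fin D)).val.map s := by
    rw [hfac, Polynomial.roots_C_mul _ hc₀]
    have h1 : (∏ a, (Polynomial.X - Polynomial.C (s a))) =
        (((Finset.univ : Finset (Fin D)).val.map s).map fun x =>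
          Polynomial.X - Polynomial.C x).prod := by
      rw [Multiset.map_map]
      rfl
    rw [h1, Polynomial.roots_multiset_prod_X_sub_C]
  have hroots2 : (PhiP Ψ (fun i => (base i).map (algebraMap k K))).roots =
      (orb y).val.bind fun q => (B - Polynomial.C (lq q)).roots := by
    rw [hPhi, Polynomial.roots_prod]
    exact Finset.prod_ne_zero_iff.2 fun q _ => hB0 _
  have hprod1 : ∏ a, R (w a) = ((PhiP Ψ (fun i => (base i).map (algebraMap k K))).roots.map
      Fn).prod := by
    rw [hroots1, Multiset.map_map]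
    exact Finset.prod_congr rfl fun a _ => hRF a
  have hprod2 : ((PhiP Ψ (fun i => (base i).map (algebraMap k K))).roots.map Fn).prod = 1 := by
    rw [hroots2, Multiset.map_bind, Multiset.prod_bind]
    refine Multiset.prod_eq_one fun z hz => ?_
    obtain ⟨q, hq, rfl⟩ := Multiset.mem_map.1 hz
    have h1 : (B - Polynomial.C (lq q)).roots.map Fn =
        (B - Polynomial.C (lq q)).roots.map fun _ => gq q := by
      refine Multiset.map_congr rfl fun x hx => ?_
      refine hFn x q hq ?_
      rw [Polynomial.mem_roots (hB0 _), Polynomial.IsRoot.def, Polynomial.eval_sub,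
        Polynomial.eval_C, sub_eq_zero] at hx
      exact hx
    rw [h1, Multiset.map_const', Multiset.prod_replicate]
    have h2 : (B - Polynomial.C (lq q)).roots.card = M := by
      rw [← hBd (lq q)]
      exact (IsAlgClosed.splits _).natDegree_eq_card_roots.symm
    rw [h2, abel_pow _ hcM]
  rw [hprod2] at hprod1
  simp only [R, Finset.prod_mul_distrib, Finset.prod_inv_distrib] at hprod1
  rw [mul_inv_eq_one] at hprod1
  rw [hprod1, map_prod]

end cnt

end Pool.Agent.R367.IG
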