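import Mathlib
import Pool.Agent.R367.IG.SLE
import Pool.Agent.R367.IG.GeoX
import Pool.Agent.R367.IG.Sem

set_option autoImplicit false

/-!
The class of an automorphism which is semilinear over the constants.
-/

namespace Pool.Agent.H391R2.T4.IGW

open MvPolynomial
open Pool.Agent.R367.IG (abm class_eqS)

set_option linter.unusedSectionVars false

section geob

variable {k : Type} [Field k] [CharZero k] {G : Type} [Group G] [Fintype G]
variable (y : MvPolynomial G k) {J : ℕ}

theorem base1_natDegree (d : Dat k G Empty (Fin J)) (h : GD y d) {M : ℕ}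
    (hM : 2 + d.R.natDegree = M) {k₁ : Type} [Field k₁] [Algebra k k₁] (t₁ : k₁) :
    (base1 y d t₁ none).natDegree = M := by
  obtain ⟨h1, h2⟩ := Qt_deg (E := k₁) d.c h.hc d.R h.hR M hM t₁
  unfold base1
  simp only [bsT]
  rw [Polynomial.natDegree_C_add]
  exact h1

theorem cls2S [YData y] (hG3 : 3 ≤ Fintype.card G) (d : Dat k G Empty (Fin J)) (h : GD y d)
    (Ψ : Polynomial (MvPolynomial (Fin (Fintype.card G)) k)) (hm : Ψ.Monic)
    (hΨ : Ψ.map ((aeval fun i : Fin (Fintype.card G) => esymm G k (i + 1) :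
      MvPolynomial (Fin (Fintype.card G)) k →ₐ[k] MvPolynomial G k) :
      MvPolynomial (Fin (Fintype.card G)) k →+* MvPolynomial G k) =
      ∏ q ∈ orb y, (Polynomial.X - Polynomial.C q))
    (T : ℕ) (hT : ∀ e, (Ψ.coeff e).totalDegree ≤ T)
    (M : ℕ) (hJM : J + 1 < M) (hB : T * (J + 1) < M) (hM : 2 + d.R.natDegree = M) (n : ℕ)
    (hn : 3 ≤ n) (hdeg : Ψ.natDegree * M = n + J) (hcM : Fintype.card G ∣ M)
    (hsepl : ∀ q ∈ orb y, ∀ q' ∈ orb y, aeval d.l q = aeval d.l q' → q = q')
    {N : Type} [Field N] [Algebra k N]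
    (ξ : Empty ⊕ (Unit ⊕ (Option (Fin (Fintype.card G)) ⊕ Option (Fin (Fintype.card G)))) → N)
    -- the field of the first parameters
    (k₁ : Type) [Field k₁] [Algebra k k₁] [Algebra k₁ N] [IsScalarTower k k₁ N]
    (t₁ : k₁) (ht₁ : algebraMap k₁ N t₁ = ξ (Sum.inr (Sum.inl ())))
    (hθ : AlgebraicIndependent k₁ (fun i => ξ (Sum.inr (Sum.inr i))))
    (r : Fin n → N) (hr : Function.Injective r) (vv : Fin n → G → N)
    (hrw : ∀ i, Polynomial.aeval (r i) d.w ≠ 0) (hsol : ∀ i, SolP y (PX y d ξ) (r i) (vv i)) :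
    ∃ E : Abelianization G, ∀ (f : k →+* k) (f₁ : k₁ →+* k₁) (γ : N →+* N) (α : MulAut G)
      (sq : Equiv.Perm Empty), SI f α sq y d → (∀ a, f (d.nd a) = d.nd a) →
      (∀ a, f₁ (algebraMap k k₁ a) = algebraMap k k₁ (f a)) → f₁ t₁ = t₁ →
      (∀ a, γ (algebraMap k₁ N a) = algebraMap k₁ N (f₁ a)) →
      (∀ v, γ (ξ v) = ξ v) →
      ∀ x : Wr G n, (∀ i g, γ (vv i g) = vv (x.right i) (x.left (x.right i) * α g)) →
      ∏ i, Abelianization.of (x.left i) = abm α E * E⁻¹ := by
  classical
  have hck : CharZero k₁ := charZero_of_injective_algebraMap (algebraMap k k₁).injective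
  let kc : Empty → Option (Fin (Fintype.card G)) → k₁ := fun q => q.elim
  have hkc : ∀ q i, algebraMap k₁ N (kc q i) =
      Polynomial.aeval (ξ (Sum.inl q)) (kp y d.l (d.hh q) (d.ζ q) d.e i) := fun q => q.elim
  have hξt : ∀ q : Empty, Transcendental k (ξ (Sum.inl q)) := fun q => q.elim
  have hfam : ∀ i, fam G (fun i => base1 y d t₁ i + corr1 d kc i) (d.w.map (algebraMap k k₁))
      (fun i => ξ (Sum.inr (Sum.inr i))) i = PX y d ξ i := by
    intro i
    rw [fam_PP y d t₁ kc (fun q => ξ (Sum.inl q)) hkc _ i, ht₁]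
    rfl
  have hw1 : ∀ s : N, Polynomial.aeval s (d.w.map (algebraMap k k₁)) = Polynomial.aeval s d.w :=
    fun s => Polynomial.aeval_map_algebraMap _ _ _
  have hSolP : ∀ s v, Sol (bcy k₁ y) (fun i => base1 y d t₁ i + corr1 d kc i)
      (d.w.map (algebraMap k k₁)) (fun i => ξ (Sum.inr (Sum.inr i))) s v ↔
        Polynomial.aeval s d.w ≠ 0 ∧ SolP y (PX y d ξ) s v := by
    intro s v
    unfold Sol SolP
    simp only [hfam, hw1, aeval_tv_bcy]
  have hwd : d.w.natDegree ≤ J := by
    rw [h.hw]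
    refine (Polynomial.natDegree_prod_le _ _).trans ?_
    simp
  have hnuE : ∀ a, SolP (bcy k₁ y) (fun i => (base1 y d t₁ i + corr1 d kc i).map
      (algebraMap k₁ N)) (algebraMap k₁ N (algebraMap k k₁ (d.nd a)))
      (nu d (fun q => ξ (Sum.inl q)) a) := by
    intro a
    rw [SolP_bcy]
    intro i
    have h1 := PX_node y d h ξ a i
    rw [← hfam i] at h1
    rw [h1, ← IsScalarTower.algebraMap_apply]
    unfold fam
    rw [Polynomial.eval_add, Polynomial.eval_mul]
    have h2 : ((d.w.map (algebraMap k k₁)).map (algebraMap k₁ N)).eval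
        (algebraMap k N (d.nd a)) = 0 := by
      rw [Polynomial.map_map, ← IsScalarTower.algebraMap_eq]
      exact w_eval h a
    rw [h2, zero_mul, add_zero]
  obtain ⟨E, hE⟩ := class_eqS (bcy k₁ y) hG3 (bcP k₁ Ψ) (bcP_psi y Ψ hΨ)
    (fun i => base1 y d t₁ i) (fun i => corr1 d kc i) (d.w.map (algebraMap k k₁)) (n := n)
    (J := J) (algebraMap k k₁ (d.c ^ Ψ.natDegree))
    ((_root_.map_ne_zero _).2 (pow_ne_zero _ h.hc)) (by
      intro E _ _ θ' x
      let _ : Algebra k E := ((algebraMap k₁ E).comp (algebraMap k k₁)).toAlgebra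
      have hTE : IsScalarTower k k₁ E := IsScalarTower.of_algebraMap_eq fun x => rfl
      rw [PhiP_bcP]
      obtain ⟨e1, e2, e3⟩ := path_deg y d.l d.c h.hc d.R h.hR M hM hJM t₁ (corr1 d kc)
        (by
          intro i
          unfold corr1
          apply Polynomial.natDegree_sum_le_of_forall_le
          intro q _
          exact q.elim)
        (d.w.map (algebraMap k k₁)) (Polynomial.natDegree_map_le.trans hwd) θ' x
      obtain ⟨e4, e5⟩ := PhiP_natDegree Ψ hm T hT _ (J + 1) M hB e1 e2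
      refine ⟨e4.trans hdeg, ?_⟩
      rw [map_pow, map_pow]
      rw [← e3]
      exact e5)
    (fun a => algebraMap k k₁ (d.nd a))
    (fun a b hab => h.hnd ((algebraMap k k₁).injective hab))
    (fun a => by
      have h1 := w_eval h (E := k₁) a
      rwa [← Polynomial.coe_aeval_eq_eval] at h1)
    (by
      intro E _ _ s hs
      let _ : Algebra k E := ((algebraMap k₁ E).comp (algebraMap k k₁)).toAlgebra
      have hTE : IsScalarTower k k₁ E := IsScalarTower.of_algebraMap_eq fun x => rfl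
      rw [Polynomial.aeval_map_algebraMap] at hs
      obtain ⟨a, ha⟩ := w_root h s hs
      exact ⟨a, ha⟩)
    (fun g => algebraMap k k₁ (d.l g))
    (fun a b hab => h.hl ((algebraMap k k₁).injective hab))
    (by
      intro i
      have h1 := aeval_l_bc (k₁ := k₁) d.l (esymm G k (i + 1))
      rw [MvPolynomial.map_esymm] at h1
      rw [h1]
      rfl)
    (by
      intro q hq q' hq' heq
      rw [orb_bcy] at hq hq'
      obtain ⟨p, hp, rfl⟩ := Finset.mem_image.1 hq
      obtain ⟨p', hp', rfl⟩ := Finset.mem_image.1 hq'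
      rw [aeval_l_bc, aeval_l_bc] at heq
      rw [hsepl p hp p' hp' ((algebraMap k k₁).injective heq)])
    M (by omega) (base1_natDegree y d h hM t₁) hcM
    (fun i => ξ (Sum.inr (Sum.inr i))) hθ (by omega) r hr vv
    (fun i => (hSolP _ _).2 ⟨hrw i, hsol i⟩)
    (fun a => nu d (fun q => ξ (Sum.inl q)) a) hnuE
    (fun a => nu_inj h _ hξt a)
    (fun a σ hσ => by
      rw [aeval_bcy, aeval_bcy] at hσ
      exact nu_stab h _ hξt a σ hσ)
  refine ⟨E, fun f f₁ γ α sq hSI hfn hf₁ hft hγ₁ hγξ x hx => ?_⟩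
  have hγk : ∀ a, γ (algebraMap k N a) = algebraMap k N (f a) := by
    intro a
    rw [IsScalarTower.algebraMap_apply k k₁ N, hγ₁, hf₁, ← IsScalarTower.algebraMap_apply k k₁ N]
  have hcomp : f₁.comp (algebraMap k k₁) = (algebraMap k k₁).comp f := RingHom.ext hf₁
  have hfin := hE f₁ γ α hγ₁
    (by
      unfold bcy
      rw [MvPolynomial.map_map, hcomp, ← MvPolynomial.map_map, ← MvPolynomial.map_rename, hSI.hy])
    (by
      intro i
      have e0 : ∀ i, f (aeval d.l (tv y i)) = aeval d.l (tv y i) := l_si hSI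
      unfold base1
      cases i with
      | none =>
        simp only [bsT, Polynomial.map_add, Polynomial.map_C, Polynomial.map_mul,
          Polynomial.map_sub, Polynomial.map_pow, Polynomial.map_X, Polynomial.map_map, hcomp,
          hf₁, hft, hSI.hc]
        rw [← Polynomial.map_map, hSI.hR]
        have h1 := e0 none
        change f (aeval d.l y) = aeval d.l y at h1
        rw [h1]
      | some i =>
        simp only [bsT, Polynomial.map_C, hf₁]
        have h1 := e0 (some i)
        change f (aeval d.l (esymm G k (i + 1))) = aeval d.l (esymm G k (i + 1)) at h1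
        rw [h1])
    (by
      intro i
      unfold corr1
      rw [Finset.univ_eq_empty, Finset.sum_empty, Polynomial.map_zero])
    (by
      rw [Polynomial.map_map, hcomp, ← Polynomial.map_map, w_si hSI h])
    (fun i => hγξ _)
    x.right (fun i => x.left (x.right i))
    (fun i g => hx i g)
    (fun _ => 1)
    (fun a x => by
      have ha' : ¬ ∃ q' : Empty, d.emb q' = a := fun ⟨q', _⟩ => q'.elim
      rw [one_mul, nu_not _ _ ha', nu_not _ _ ha', hγk, hSI.hl])
  rw [Finset.prod_eq_one (s := Finset.univ) (f := fun _ : Fin J =>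
    Abelianization.of (1 : G)) (fun _ _ => map_one _), mul_one] at hfin
  rw [← hfin]
  exact (Equiv.prod_comp x.right (fun i => Abelianization.of (x.left i))).symm

/-- The class of an automorphism, semilinear over the constants, which fixes all parameters. -/
theorem clsS [YData y] (hG3 : 3 ≤ Fintype.card G) (d : Dat k G Empty (Fin J)) (h : GD y d)
    (Ψ : Polynomial (MvPolynomial (Fin (Fintype.card G)) k)) (hm : Ψ.Monic)
    (hΨ : Ψ.map ((aeval fun i : Fin (Fintype.card G) => esymm G k (i + 1) :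
      MvPolynomial (Fin (Fintype.card G)) k →ₐ[k] MvPolynomial G k) :
      MvPolynomial (Fin (Fintype.card G)) k →+* MvPolynomial G k) =
      ∏ q ∈ orb y, (Polynomial.X - Polynomial.C q))
    (T : ℕ) (hT : ∀ e, (Ψ.coeff e).totalDegree ≤ T)
    (M : ℕ) (hJM : J + 1 < M) (hB : T * (J + 1) < M) (hM : 2 + d.R.natDegree = M) (n : ℕ)
    (hn : 3 ≤ n) (hdeg : Ψ.natDegree * M = n + J) (hcM : Fintype.card G ∣ M)
    (hsepl : ∀ q ∈ orb y, ∀ q' ∈ orb y, aeval d.l q = aeval d.l q' → q = q')
    {N : Type} [Field N] [Algebra k N]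
    (ξ : Empty ⊕ (Unit ⊕ (Option (Fin (Fintype.card G)) ⊕ Option (Fin (Fintype.card G)))) → N)
    (hξ : AlgebraicIndependent k ξ)
    (r : Fin n → N) (hr : Function.Injective r) (vv : Fin n → G → N)
    (hrw : ∀ i, Polynomial.aeval (r i) d.w ≠ 0) (hsol : ∀ i, SolP y (PX y d ξ) (r i) (vv i)) :
    ∃ E : Abelianization G, ∀ (f : k →+* k) (γ : N →+* N) (α : MulAut G)
      (sq : Equiv.Perm Empty), SI f α sq y d → (∀ a, f (d.nd a) = d.nd a) →
      (∀ a, γ (algebraMap k N a) = algebraMap k N (f a)) →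
      (∀ v, γ (ξ v) = ξ v) →
      ∀ x : Wr G n, (∀ i g, γ (vv i g) = vv (x.right i) (x.left (x.right i) * α g)) →
      ∏ i, Abelianization.of (x.left i) = abm α E * E⁻¹ := by
  let K₁ : IntermediateField k N := IntermediateField.adjoin k (Set.range
      (Sum.elim (fun q : Empty => ξ (Sum.inl q)) (fun _ : Unit => ξ (Sum.inr (Sum.inl ())))))
  have hmemt : ξ (Sum.inr (Sum.inl ())) ∈ K₁ :=
    IntermediateField.subset_adjoin _ _ ⟨Sum.inr (), rfl⟩
  have hθ : AlgebraicIndependent K₁ (fun i => ξ (Sum.inr (Sum.inr i))) := indep_split _ hξ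
  obtain ⟨E, hE⟩ := cls2S y hG3 d h Ψ hm hΨ T hT M hJM hB hM n hn hdeg hcM hsepl ξ K₁
    ⟨_, hmemt⟩ rfl hθ r hr vv hrw hsol
  refine ⟨E, fun f γ α sq hSI hfn hγk hγξ x hx => ?_⟩
  let S : IntermediateField k N :=
    { carrier := {z | γ z ∈ K₁}
      mul_mem' := fun {a b} ha hb => by
        change γ (a * b) ∈ K₁
        rw [map_mul]
        exact K₁.mul_mem ha hb
      add_mem' := fun {a b} ha hb => by
        change γ (a + b) ∈ K₁
        rw [map_add]
        exact K₁.add_mem ha hb
      algebraMap_mem' := fun a => by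
        change γ (algebraMap k N a) ∈ K₁
        rw [hγk]
        exact K₁.algebraMap_mem _
      inv_mem' := fun a ha => by
        change γ a⁻¹ ∈ K₁
        rw [map_inv₀]
        exact K₁.inv_mem ha }
  have hKS : K₁ ≤ S := by
    refine IntermediateField.adjoin_le_iff.2 ?_
    rintro _ ⟨v, rfl⟩
    rcases v with q | u
    · exact q.elim
    · change γ (ξ (Sum.inr (Sum.inl ()))) ∈ K₁
      rw [hγξ]
      exact hmemt
  let f₁ : K₁ →+* K₁ := (γ.comp (algebraMap K₁ N)).codRestrict K₁ (fun z => hKS z.2)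
  exact hE f f₁ γ α sq hSI hfn (fun a => Subtype.ext (hγk a)) (Subtype.ext (hγξ _))
    (fun a => rfl) hγξ x hx

end geob

end Pool.Agent.H391R2.T4.IGW
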