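import Mathlib
import Pool.Agent.R367.IG.SLF
import Pool.Agent.R367.IG.ArS
import Pool.Agent.H391R2.T4.Dt2
import Pool.Agent.H391R2.T4.Dt3
import Pool.Agent.W200.IK.DB
import Pool.Agent.TH59.WX.UA

set_option autoImplicit false

/-!
Split embedding problems whose kernel is the norm-one subgroup of a wreath product.
-/

namespace Pool.Agent.R367.IG

open Pool.Agent.H391R2 Pool.Agent.H391R2.T4

theorem numbers6 (g D T : ℕ) (hg : 0 < g) (hD : 0 < D) (hDg : D ≤ g.factorial)
    (hT : T ≤ g.factorial * g ^ 2) (n : ℕ) (hn : ((g + 2).factorial) ^ 3 ≤ n) : 3 ≤ n ∧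
    ∃ J M : ℕ, J + 1 < M ∧ T * (J + 1) < M ∧ D * M = n + J ∧ g ∣ M := by
  have hD' : 0 < D * g := Nat.mul_pos hD hg
  obtain ⟨J, M', hJ, hM⟩ : ∃ J M', J < D * g ∧ D * g * M' = n + J := by
    have h1 := Nat.div_add_mod n (D * g)
    have h2 := Nat.mod_lt n hD'
    by_cases h0 : n % (D * g) = 0
    · exact ⟨0, n / (D * g), hD', by omega⟩
    · refine ⟨D * g - n % (D * g), n / (D * g) + 1, by omega, ?_⟩
      rw [mul_add, mul_one]
      omega
  have h1 : g.factorial * g < (g + 2).factorial := by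
    have e1 : (g + 2).factorial = (g + 2) * ((g + 1) * g.factorial) := by
      rw [Nat.factorial_succ, Nat.factorial_succ]
    have e2 := Nat.factorial_pos g
    rw [e1]
    nlinarith
  have h2 : (g.factorial * g) ^ 3 < n := (Nat.pow_lt_pow_left h1 (by omega)).trans_le hn
  have h3 : 1 ≤ g.factorial * g := Nat.mul_pos (Nat.factorial_pos g) hg
  have h4 : J + 1 ≤ g.factorial * g := by
    have e1 : D * g ≤ g.factorial * g := Nat.mul_le_mul_right _ hDg
    omega
  have h5 : D * (T * (J + 1)) < D * (g * M') := by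
    calc D * (T * (J + 1)) ≤ g.factorial * (g.factorial * g ^ 2 * (g.factorial * g)) :=
          Nat.mul_le_mul hDg (Nat.mul_le_mul hT h4)
      _ = (g.factorial * g) ^ 3 := by ring
      _ < n := h2
      _ ≤ n + J := Nat.le_add_right _ _
      _ = D * (g * M') := by rw [← hM, mul_assoc]
  have h6 : D * (J + 1) < D * (g * M') := by
    calc D * (J + 1) ≤ g.factorial * (g.factorial * g) := Nat.mul_le_mul hDg h4
      _ ≤ (g.factorial * g) * (g.factorial * g) :=
          Nat.mul_le_mul_right _ (Nat.le_mul_of_pos_right _ hg)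
      _ ≤ (g.factorial * g) * (g.factorial * g) * (g.factorial * g) :=
          Nat.le_mul_of_pos_right _ h3
      _ = (g.factorial * g) ^ 3 := by ring
      _ < n := h2
      _ ≤ n + J := Nat.le_add_right _ _
      _ = D * (g * M') := by rw [← hM, mul_assoc]
  refine ⟨?_, J, g * M', Nat.lt_of_mul_lt_mul_left h6, Nat.lt_of_mul_lt_mul_left h5,
    by rw [← mul_assoc]; exact hM, dvd_mul_right _ _⟩
  have e1 : 2 < (g + 2).factorial := by
    have e2 := Nat.self_le_factorial (g + 2)
    omega
  have e3 : (g + 2).factorial ≤ (g + 2).factorial ^ 3 := Nat.le_self_pow (by omega) _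
  omega

section grp

variable {Γ G : Type} [Group Γ] [Group G]

theorem wcls_act (φ : Γ →* MulAut G) (n : ℕ) (ρ : Γ) (x : Wr G n) :
    wcls G n (wrAct φ n ρ x) = abm (φ ρ) (wcls G n x) := by
  rw [wcls_apply, wcls_apply, map_prod]
  rfl

/-- The norm-one subgroup of the twisted wreath product. -/
def NO (φ : Γ →* MulAut G) (n : ℕ) : Subgroup (EG φ n) where
  carrier := {z | wcls G n z.left = 1}
  mul_mem' := by
    intro a b ha hb
    change wcls G n (a * b).left = 1
    rw [eg_mul_left, map_mul, wcls_act]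
    have ha' : wcls G n a.left = 1 := ha
    have hb' : wcls G n b.left = 1 := hb
    rw [ha', hb', map_one, mul_one]
  one_mem' := map_one _
  inv_mem' := by
    intro a ha
    have ha' : wcls G n a.left = 1 := ha
    change wcls G n (a⁻¹).left = 1
    rw [SemidirectProduct.inv_left, wcls_act, map_inv (wcls G n), ha', inv_one, map_one]

theorem mem_NO (φ : Γ →* MulAut G) (n : ℕ) (z : EG φ n) : z ∈ NO φ n ↔
    ∏ i, Abelianization.of (z.left.left i) = 1 := Iff.rfl

end grp

end Pool.Agent.R367.IG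

namespace Pool.Agent.H391R2.T4.IGW

open MvPolynomial
open Pool.Agent.R367.IG (abm abm_of NO mem_NO numbers6 arith_sub)

set_option linter.unusedSectionVars false

/-- The norm-one subgroup of the twisted wreath product is the group of a regular extension. -/
theorem reg_kerL3 (K L : Type) [Field K] [CharZero K] [Field L] [Algebra K L]
    [FiniteDimensional K L] [IsGalois K L] (G : Type) [Group G] [Fintype G]
    (hG3 : 3 ≤ Fintype.card G) (φ : (L ≃ₐ[K] L) →* MulAut G) :
    ∀ n ≥ ((Fintype.card G + 2).factorial) ^ 3, 3 ≤ n ∧ RegSol K L (NO φ n)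
      ((SemidirectProduct.rightHom : EG φ n →* (L ≃ₐ[K] L)).comp (NO φ n).subtype) := by
  classical
  have := Fintype.ofFinite (L ≃ₐ[K] L)
  let K₀ := AlgebraicClosure L
  have hcL : CharZero L := charZero_of_injective_algebraMap (algebraMap K L).injective
  have hcK₀ : CharZero K₀ := charZero_of_injective_algebraMap (algebraMap L K₀).injective
  have hinj₀ : Function.Injective (algebraMap L K₀) := (algebraMap L K₀).injective
  have hinjK : Function.Injective (algebraMap K K₀) := (algebraMap K K₀).injective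
  obtain ⟨b, hb0, hb⟩ := exists_ker_elt K L φ
  obtain ⟨y, hy⟩ : ∃ y : MvPolynomial G K₀, y = yp K₀ φ b := ⟨_, rfl⟩
  have hYD : YData y := by
    rw [hy]
    exact yp_data φ b hb0 hb
  obtain ⟨Ψ, hm, hdeg, hΨ⟩ := exists_psi y
  have hyd : y.totalDegree ≤ (Fintype.card G) ^ 2 := by
    rw [hy]
    exact Pool.Agent.TH59.WX.yp_deg0 φ b
  obtain ⟨T, hTdef⟩ : ∃ T : ℕ, T = (Fintype.card G).factorial * (Fintype.card G) ^ 2 := ⟨_, rfl⟩
  have hT : ∀ e, (Ψ.coeff e).totalDegree ≤ T := fun e => by
    rw [hTdef]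
    exact Pool.Agent.W200.IK.psi_deg y _ hyd hΨ e
  have hd0 : 0 < (orb y).card := Finset.card_pos.2 ⟨_, y_mem_orb y⟩
  -- the constants
  let P : MvPolynomial G K₀ := (∏ p : G × G, if p.1 = p.2 then 1 else X p.1 - X p.2) *
    ∏ p ∈ (orb y) ×ˢ (orb y), if p.1 = p.2 then 1 else p.1 - p.2
  have hP : P ≠ 0 := by
    refine mul_ne_zero (Finset.prod_ne_zero_iff.2 fun p _ => ?_)
      (Finset.prod_ne_zero_iff.2 fun p _ => ?_)
    · by_cases h : p.1 = p.2
      · rw [if_pos h]
        exact one_ne_zero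
      · rw [if_neg h]
        exact sub_ne_zero.2 fun h' => h (X_injective h')
    · by_cases h : p.1 = p.2
      · rw [if_pos h]
        exact one_ne_zero
      · rw [if_neg h]
        exact sub_ne_zero.2 h
  obtain ⟨l, hl1, hl2⟩ := exists_l φ P hP
  obtain ⟨lK, hlK⟩ : ∃ lK : G → K₀, lK = fun g => algebraMap L K₀ (l g) := ⟨_, rfl⟩
  rw [← hlK] at hl2
  have hlinj : Function.Injective lK := by
    intro g g' hgg
    by_contra hne
    apply hl2
    rw [map_mul, map_prod, Finset.prod_eq_zero (Finset.mem_univ (g, g')), zero_mul]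
    simp only [if_neg hne, map_sub, aeval_X, hgg, sub_self]
  have hlδ : ∀ q ∈ orb y, ∀ q' ∈ orb y, q ≠ q' → aeval lK q ≠ aeval lK q' := by
    intro q hq q' hq' hne h
    apply hl2
    rw [map_mul, map_prod, map_prod, Finset.prod_eq_zero
      (Finset.mem_product.2 ⟨hq, hq'⟩ : (q, q') ∈ (orb y) ×ˢ (orb y)), mul_zero]
    simp only [if_neg hne, map_sub, h, sub_self]
  intro n hn
  obtain ⟨hn3, J, M, hJM, hTM, hDM, hcM⟩ := numbers6 (Fintype.card G) (orb y).card T
    Fintype.card_pos hd0 (Pool.Agent.W200.IK.card_orb_le y) hTdef.le n hn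
  refine ⟨hn3, ?_⟩
  obtain ⟨j', hj'⟩ : ∃ j', 2 + (J + j') = M := ⟨M - 2 - J, by omega⟩
  let R : Polynomial K₀ := ∏ v : Fin (J + j'), (Polynomial.X - Polynomial.C ((v : ℕ) + 1 : K₀))
  have hninj : ∀ m : ℕ, Function.Injective (fun v : Fin m => ((v : ℕ) + 1 : K₀)) := by
    intro m v v' h
    have h1 : ((v : ℕ) : K₀) = ((v' : ℕ) : K₀) := add_right_cancel h
    exact Fin.val_injective (Nat.cast_injective h1)
  have hRm : R.Monic := Polynomial.monic_prod_of_monic _ _ fun v _ => Polynomial.monic_X_sub_C _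
  have hRd : R.natDegree = J + j' := by
    rw [Polynomial.natDegree_prod_of_monic _ _ fun v _ => Polynomial.monic_X_sub_C _]
    simp only [Polynomial.natDegree_X_sub_C, Finset.sum_const, Finset.card_univ, Fintype.card_fin,
      smul_eq_mul, mul_one]
  have hRs : R.Separable := Polynomial.separable_prod_X_sub_C_iff.2 (hninj _)
  obtain ⟨B, hB, hBc⟩ := sep_c ((orb y).erase y) (fun q => aeval lK q - aeval lK y)
    (fun q hq => sub_ne_zero.2 (hlδ q (Finset.mem_of_mem_erase hq) y (y_mem_orb y)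
      (Finset.ne_of_mem_erase hq)))
    (fun q hq q' hq' hne h => hlδ q (Finset.mem_of_mem_erase hq) q' (Finset.mem_of_mem_erase hq')
      hne (sub_left_injective h)) R hRs hRm.ne_zero
  obtain ⟨c, hc0, hcB⟩ : ∃ c : K, c ≠ 0 ∧ algebraMap K K₀ c ∉ B := by
    have hinf : Infinite K := inferInstance
    obtain ⟨cc, -, hcc⟩ := exists_nat_avoid K ({0} ∪ (algebraMap K K₀) ⁻¹' B)
      ((Set.finite_singleton _).union (hB.preimage hinjK.injOn))
    exact ⟨cc 0, fun h => hcc 0 (Or.inl h), fun h => hcc 0 (Or.inr h)⟩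
  let d : Dat K₀ G Empty (Fin J) :=
    { l := lK
      c := algebraMap K K₀ c
      R := R
      nd := fun a => ((a : ℕ) + 1 : K₀)
      w := ∏ a : Fin J, (Polynomial.X - Polynomial.C ((a : ℕ) + 1 : K₀))
      hh := fun q => q.elim
      ζ := fun q => q.elim
      e := 1
      emb := fun q => q.elim }
  have hGD : GD y d :=
    { hl := hlinj
      hδ := fun q hq hne => sub_ne_zero.2 (hlδ q hq y (y_mem_orb y) hne)
      hc := (_root_.map_ne_zero _).2 hc0
      hR := hRm
      hR0 := by
        change R.eval 0 ≠ 0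
        rw [Polynomial.eval_prod]
        refine Finset.prod_ne_zero_iff.2 fun v _ => ?_
        simp only [Polynomial.eval_sub, Polynomial.eval_X, Polynomial.eval_C, zero_sub,
          neg_ne_zero]
        exact_mod_cast Nat.succ_ne_zero (v : ℕ)
      hnd := hninj _
      hndR := fun a => by
        change R.eval ((a : ℕ) + 1 : K₀) = 0
        rw [Polynomial.eval_prod]
        refine Finset.prod_eq_zero (Finset.mem_univ (Fin.castAdd j' a)) ?_
        rw [Polynomial.eval_sub, Polynomial.eval_X, Polynomial.eval_C, Fin.val_castAdd, sub_self]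
      hw := rfl
      he0 := Nat.one_pos
      hhe := fun q => q.elim
      hζ := fun q => q.elim
      hemb := fun q => q.elim }
  have hnat : ∀ (f : K₀ →+* K₀) (m : ℕ), f ((m : K₀) + 1) = (m : K₀) + 1 := by
    intro f m
    rw [map_add, map_natCast, map_one]
  have hSI : ∀ (f : K₀ ≃ₐ[K] K₀) (ρ : L ≃ₐ[K] L),
      (∀ a, f (algebraMap L K₀ a) = algebraMap L K₀ (ρ a)) →
      SI (f : K₀ →+* K₀) (φ ρ) (Equiv.refl Empty) y d := by
    intro f ρ hf
    exact
      { hy := by
          rw [hy]
          exact yp_si φ b (f : K₀ →+* K₀) ρ hf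
        hl := fun g => by
          change f (lK g) = lK (φ ρ g)
          rw [hlK, hf, hl1]
        hc := f.commutes c
        hR := by
          change R.map (f : K₀ →+* K₀) = R
          simp only [R]
          rw [Polynomial.map_prod]
          refine Finset.prod_congr rfl fun v _ => ?_
          rw [Polynomial.map_sub, Polynomial.map_X, Polynomial.map_C, hnat]
        hnd := ⟨Equiv.refl _, fun a => hnat _ _, fun q => q.elim⟩
        hh := fun q => q.elim
        hζ := fun q => q.elim }
  obtain ⟨N, i1, i2, i3, ξ, hξ⟩ := exists_big K₀ (Empty ⊕ (Unit ⊕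
    (Option (Fin (Fintype.card G)) ⊕ Option (Fin (Fintype.card G)))))
  let _ : Algebra K N := ((algebraMap K₀ N).comp (algebraMap K K₀)).toAlgebra
  let _ : Algebra L N := ((algebraMap K₀ N).comp (algebraMap L K₀)).toAlgebra
  have hT1 : IsScalarTower K K₀ N := IsScalarTower.of_algebraMap_eq fun x => rfl
  have hT2 : IsScalarTower L K₀ N := IsScalarTower.of_algebraMap_eq fun x => rfl
  have hT3 : IsScalarTower K L N := IsScalarTower.of_algebraMap_eq fun x => by
    change algebraMap K₀ N (algebraMap K K₀ x) = algebraMap K₀ N (algebraMap L K₀ _)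
    rw [← IsScalarTower.algebraMap_apply K L K₀]
  have halgKK₀ : Algebra.IsAlgebraic K K₀ := Algebra.IsAlgebraic.trans K L K₀
  have hnK₀ : Normal K K₀ := by
    have : IsAlgClosure K K₀ := ⟨inferInstance, halgKK₀⟩
    exact IsAlgClosure.normal K K₀
  have hMR : 2 + d.R.natDegree = M := by
    change 2 + R.natDegree = M
    rw [hRd]
    exact hj'
  obtain ⟨r, vv, hr, hrw, hsol, hvinj, hall, hgeo⟩ := geoW (k := K₀) y d hGD
    Ψ hm hΨ T hT (hBc _ ((_root_.map_ne_zero _).2 hc0) hcB) M hJM hTM hMR n hn3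
    (by rw [hdeg]; exact hDM) ξ hξ
  obtain ⟨E, hE⟩ := clsS y hG3 d hGD Ψ hm hΨ T hT M hJM hTM hMR n hn3 (by rw [hdeg]; exact hDM)
    hcM (fun q hq q' hq' h => by
      by_contra hne
      exact hlδ q hq q' hq' hne h) ξ hξ.1 r hr vv hrw hsol
  -- the new labels
  obtain ⟨g₀, hg₀⟩ : ∃ g₀ : G, Abelianization.of g₀ = E := QuotientGroup.mk_surjective E
  let i₀ : Fin n := ⟨0, by omega⟩
  let cc : Fin n → G := fun i => if i = i₀ then g₀⁻¹ else 1
  have hcc : ∏ i, Abelianization.of (cc i) = E⁻¹ := by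
    rw [Finset.prod_eq_single i₀]
    · simp only [cc, if_true, map_inv, hg₀]
    · intro i _ hi
      simp only [cc, if_neg hi, map_one]
    · intro h
      exact absurd (Finset.mem_univ _) h
  have hccπ : ∀ (π : Equiv.Perm (Fin n)), ∏ i, Abelianization.of (cc (π i)) = E⁻¹ := fun π =>
    (Equiv.prod_comp π (fun i => Abelianization.of (cc i))).trans hcc
  refine arith_sub K L K₀ N _ ξ hξ G φ n (NO φ n) r hr (fun i => vv i ∘ Equiv.mulLeft (cc i))
    (fun i => (hvinj i).comp (Equiv.mulLeft (cc i)).injective) ?_ ?_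
  · intro σ ρ hσ1 hσ2
    let f : K₀ ≃ₐ[K] K₀ := σ.restrictNormal K₀
    have hf : ∀ a : K₀, σ (algebraMap K₀ N a) = algebraMap K₀ N (f a) := fun a =>
      (AlgEquiv.restrictNormal_commutes σ K₀ a).symm
    have hfρ : ∀ a, f (algebraMap L K₀ a) = algebraMap L K₀ (ρ a) := by
      intro a
      apply (algebraMap K₀ N).injective
      rw [← hf, ← IsScalarTower.algebraMap_apply L K₀ N, hσ2, ← IsScalarTower.algebraMap_apply]
    have h1 : ∀ i, ∃ i', σ (r i) = r i' ∧ ∃ g, (fun x => σ (vv i ((φ ρ)⁻¹ x))) =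
        vv i' ∘ Equiv.mulLeft g := by
      intro i
      obtain ⟨h2, h3⟩ := SolP_si (hSI f ρ hfρ) hGD (σ : N →+* N) hf ξ (fun q => q.elim)
        (fun q => q.elim) (fun v => hσ1 (Sum.inr v)) (r i) (vv i) (hsol i) (hrw i)
      exact hall _ _ h2 h3
    choose p hp g hg using h1
    have hpinj : Function.Injective p := by
      intro i j hij
      apply hr
      apply σ.injective
      rw [hp, hp, hij]
    let π : Equiv.Perm (Fin n) := Equiv.ofBijective p (Finite.injective_iff_bijective.1 hpinj)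
    let x : Wr G n := ⟨fun j => g (π.symm j), π⟩
    have hx : ∀ i g', σ (vv i g') = vv (x.right i) (x.left (x.right i) * φ ρ g') := by
      intro i x'
      change σ (vv i x') = vv (π i) (g (π.symm (π i)) * φ ρ x')
      rw [Equiv.symm_apply_apply]
      have h2 := congrFun (hg i) (φ ρ x')
      have h3 : (φ ρ)⁻¹ (φ ρ x') = x' := (φ ρ).symm_apply_apply x'
      simp only [h3] at h2
      exact h2
    have hclass := hE (f : K₀ →+* K₀) (σ : N →+* N) (φ ρ) (Equiv.refl Empty) (hSI f ρ hfρ)
      (fun a => hnat _ _) hf hσ1 x hx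
    refine ⟨⟨fun j => (cc j)⁻¹ * x.left j * φ ρ (cc (π.symm j)), π⟩, ?_, fun i => ⟨hp i, ?_⟩⟩
    · rw [mem_NO]
      change ∏ j, Abelianization.of ((cc j)⁻¹ * x.left j * φ ρ (cc (π.symm j))) = 1
      simp only [map_mul, map_inv, Finset.prod_mul_distrib, Finset.prod_inv_distrib, ← abm_of]
      rw [hclass, hcc, ← map_prod, hccπ, map_inv, inv_inv]
      rw [mul_comm (abm (φ ρ) E) E⁻¹, mul_inv_cancel_left, mul_inv_cancel]
    · intro x'
      change σ (vv i (cc i * x')) = vv (π i) (cc (π i) *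
        ((cc (π i))⁻¹ * x.left (π i) * φ ρ (cc (π.symm (π i))) * φ ρ x'))
      rw [hx, map_mul, Equiv.symm_apply_apply]
      congr 1
      change x.left (π i) * _ = _
      group
  · intro x hx
    rw [mem_NO] at hx
    have hx' : ∏ i, Abelianization.of (x.left i) = 1 := hx
    obtain ⟨σ, hσ1, hσ2⟩ := hgeo ⟨fun j => cc j * x.left j * (cc (x.right.symm j))⁻¹, x.right⟩ (by
      change ∏ j, Abelianization.of (cc j * x.left j * (cc (x.right.symm j))⁻¹) = 1
      simp only [map_mul, map_inv, Finset.prod_mul_distrib, Finset.prod_inv_distrib]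
      rw [hx', mul_one, hcc, hccπ, mul_inv_cancel])
    refine ⟨σ, hσ1, fun i => ⟨(hσ2 i).1, fun x' => ?_⟩⟩
    change σ (vv i (cc i * x')) = vv (x.right i) (cc (x.right i) * (x.left (x.right i) * x'))
    rw [(hσ2 i).2]
    change vv (x.right i) (cc (x.right i) * x.left (x.right i) *
      (cc (x.right.symm (x.right i)))⁻¹ * (cc i * x')) = _
    rw [Equiv.symm_apply_apply]
    congr 1
    group

end Pool.Agent.H391R2.T4.IGW
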