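import Mathlib
import Pool.Agent.R367.IG.RegL
import Pool.Agent.R367.IG.Out
import Pool.Agent.Y793.E.All

set_option autoImplicit false

/-!
Split embedding problems whose kernel is the norm-one subgroup of a wreath product, and towers.
-/

namespace Pool.Agent.R367.IG

open Pool.Agent.H391R2 Pool.Agent.H391R2.T4 Pool.Agent.Y793

/-- The projection of the norm-one subgroup. -/
def noProj {Γ G : Type} [Group Γ] [Group G] (φ : Γ →* MulAut G) (n : ℕ) : NO φ n →* Γ :=
  (SemidirectProduct.rightHom : EG φ n →* Γ).comp (NO φ n).subtype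

/-- The norm-one subgroup of the twisted wreath product is the group of a regular extension. -/
theorem reg_kerL (K L : Type) [Field K] [CharZero K] [Field L] [Algebra K L]
    [FiniteDimensional K L] [IsGalois K L] (G : Type) [Group G] [Finite G]
    (φ : (L ≃ₐ[K] L) →* MulAut G) :
    ∀ n ≥ ((3 * Nat.card G + 2).factorial) ^ 3, RegSol K L (NO φ n) (noProj φ n) := by
  classical
  have := Fintype.ofFinite G
  let C := Multiplicative (ZMod 3)
  have hcard : 3 ≤ Fintype.card (G × C) := by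
    rw [Fintype.card_prod, Fintype.card_multiplicative, ZMod.card]
    have := Fintype.card_pos (α := G)
    omega
  have hcard0 : Fintype.card (G × C) = 3 * Nat.card G := by
    rw [Fintype.card_prod, Fintype.card_multiplicative, ZMod.card, Nat.card_eq_fintype_card,
      mul_comm]
  intro n hn
  obtain ⟨-, h⟩ := IGW.reg_kerL3 K L (G × C) hcard (phiC φ C) n (by rw [hcard0]; exact hn)
  let f : EG (phiC φ C) n →* EG φ n :=
    SemidirectProduct.map (wrMap (MonoidHom.fst G C) n) (MonoidHom.id _)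
    (fun ρ => by
      apply MonoidHom.ext
      intro x
      apply SemidirectProduct.ext
      · funext i
        rfl
      · rfl)
  let g : EG φ n →* EG (phiC φ C) n :=
    SemidirectProduct.map (wrMap (MonoidHom.inl G C) n) (MonoidHom.id _)
    (fun ρ => by
      apply MonoidHom.ext
      intro x
      apply SemidirectProduct.ext
      · funext i
        rfl
      · rfl)
  have hf : ∀ z ∈ NO (phiC φ C) n, f z ∈ NO φ n := fun z hz => wrMap_ker _ n z.left hz
  have hg : ∀ z ∈ NO φ n, g z ∈ NO (phiC φ C) n := fun z hz => wrMap_ker _ n z.left hz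
  let F : NO (phiC φ C) n →* NO φ n :=
    (f.comp (NO (phiC φ C) n).subtype).codRestrict _ (fun z => hf z z.2)
  refine RegSol.quot (L := L) (L' := L) _ _ F ?_ ?_ ?_ h
  · intro z
    refine ⟨⟨g z, hg z z.2⟩, ?_⟩
    apply Subtype.ext
    apply SemidirectProduct.ext
    · apply SemidirectProduct.ext
      · funext i
        rfl
      · rfl
    · rfl
  · intro z
    have h1 : ∀ ρ : L ≃ₐ[K] L, ρ.restrictNormal L = ρ := by
      intro ρ
      apply AlgEquiv.ext
      intro x
      exact AlgEquiv.restrictNormal_commutes ρ L x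
    rw [h1]
    rfl
  · intro ρ hρ
    have h1 : ρ.restrictNormal L = ρ := by
      apply AlgEquiv.ext
      intro x
      exact AlgEquiv.restrictNormal_commutes ρ L x
    rw [h1] at hρ
    subst hρ
    exact ⟨1, map_one F, map_one _⟩

section grp

variable {Γ G : Type} [Group Γ] [Group G] (φ : Γ →* MulAut G) (χ : Γ →* ℤˣ) (n : ℕ)

/-- The elements `(f, σ, ρ)` with `∏ [f_i] = 1` and `sign σ = χ ρ`. -/
def TwNO : Subgroup (EG φ n) where
  carrier := {z | wcls G n z.left = 1 ∧ Equiv.Perm.sign z.left.right = χ z.right}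
  mul_mem' := by
    intro a b ha hb
    refine ⟨(NO φ n).mul_mem ha.1 hb.1, ?_⟩
    rw [eg_mul_left, eg_mul_right, wr_mul_right, wrAct_right, map_mul, map_mul, ha.2, hb.2]
  one_mem' := ⟨map_one _, by
    change Equiv.Perm.sign (1 : Equiv.Perm (Fin n)) = χ 1
    rw [map_one, map_one]⟩
  inv_mem' := by
    intro a ha
    refine ⟨(NO φ n).inv_mem ha.1, ?_⟩
    rw [SemidirectProduct.inv_left, SemidirectProduct.inv_right, wrAct_right,
      SemidirectProduct.inv_right, map_inv, map_inv, ha.2]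

/-- The projection. -/
def twNProj : TwNO φ χ n →* Γ :=
  (SemidirectProduct.rightHom : EG φ n →* Γ).comp (TwNO φ χ n).subtype

theorem twNO_le : TwNO φ χ n ≤ NO φ n := fun _ hz => hz.1

/-- The sign times the character. -/
def sgnN : NO φ n →* ℤˣ where
  toFun z := Equiv.Perm.sign z.1.left.right * χ z.1.right
  map_one' := by
    change Equiv.Perm.sign (1 : Equiv.Perm (Fin n)) * χ 1 = 1
    rw [map_one, map_one, one_mul]
  map_mul' z w := by
    change Equiv.Perm.sign (z.1.left.right * w.1.left.right) * χ (z.1.right * w.1.right) = _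
    rw [map_mul, map_mul, mul_mul_mul_comm]

theorem tw_eq_ker : (TwNO φ χ n).subgroupOf (NO φ n) = (sgnN φ χ n).ker := by
  ext z
  rw [Subgroup.mem_subgroupOf, MonoidHom.mem_ker]
  change _ ↔ Equiv.Perm.sign z.1.left.right * χ z.1.right = 1
  rw [units_mul_eq_one]
  exact ⟨fun h => h.2, fun h => ⟨z.2, h⟩⟩

variable {n}

theorem mem_no_inr (σ : Equiv.Perm (Fin n)) (ρ : Γ) :
    (⟨SemidirectProduct.inr σ, ρ⟩ : EG φ n) ∈ NO φ n := by
  rw [mem_NO]
  refine Finset.prod_eq_one fun i _ => ?_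
  change Abelianization.of ((SemidirectProduct.inr σ : Wr G n).left i) = 1
  rw [SemidirectProduct.left_inr, Pi.one_apply, map_one]

theorem tw_index (hn : 2 ≤ n) : ((TwNO φ χ n).subgroupOf (NO φ n)).index = 2 := by
  rw [tw_eq_ker, Subgroup.index_ker]
  have h1 : (sgnN φ χ n).range = ⊤ := by
    rw [MonoidHom.range_eq_top]
    intro e
    obtain ⟨τ, hτ⟩ := exists_odd hn
    rcases Int.units_eq_one_or e with rfl | rfl
    · exact ⟨1, map_one _⟩
    · refine ⟨⟨⟨SemidirectProduct.inr τ, 1⟩, mem_no_inr φ τ 1⟩, ?_⟩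
      change Equiv.Perm.sign τ * χ 1 = -1
      rw [hτ, map_one, mul_one]
  rw [h1, Nat.card_congr Subgroup.topEquiv.toEquiv]
  simp

theorem tw_map (hn : 2 ≤ n) :
    ((TwNO φ χ n).subgroupOf (NO φ n)).map (noProj φ n) = ⊤ := by
  rw [Subgroup.eq_top_iff']
  intro ρ
  obtain ⟨τ, hτ⟩ : ∃ τ : Equiv.Perm (Fin n), Equiv.Perm.sign τ = χ ρ := by
    rcases Int.units_eq_one_or (χ ρ) with h | h
    · exact ⟨1, by rw [h, map_one]⟩
    · rw [h]
      exact exists_odd hn
  refine Subgroup.mem_map.2 ⟨⟨⟨SemidirectProduct.inr τ, ρ⟩, mem_no_inr φ τ ρ⟩, ?_, rfl⟩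
  rw [Subgroup.mem_subgroupOf]
  exact ⟨mem_no_inr φ τ ρ, hτ⟩

theorem tw_perf (hn : 5 ≤ n) (H : Subgroup (NO φ n))
    (hH : H = (TwNO φ χ n).subgroupOf (NO φ n) ⊓ (noProj φ n).ker) : commutator H = ⊤ := by
  subst hH
  let F : Ev G n →* ((TwNO φ χ n).subgroupOf (NO φ n) ⊓ (noProj φ n).ker :
      Subgroup (NO φ n)) := MonoidHom.mk' (fun x =>
    ⟨⟨⟨x.1, 1⟩, ((mem_Ev x.1).1 x.2).1⟩, Subgroup.mem_inf.2 ⟨by
      rw [Subgroup.mem_subgroupOf]
      refine ⟨((mem_Ev x.1).1 x.2).1, ?_⟩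
      change Equiv.Perm.sign x.1.right = χ 1
      rw [map_one]
      exact ((mem_Ev x.1).1 x.2).2, rfl⟩⟩) (fun x y => by
    apply Subtype.ext
    apply Subtype.ext
    apply SemidirectProduct.ext
    · change (x.1 * y.1) = x.1 * wrAct φ n 1 y.1
      rw [map_one]
      rfl
    · exact (mul_one 1).symm)
  have hF : Function.Bijective F := by
    constructor
    · intro x y hxy
      have h1 : ((F x : NO φ n) : EG φ n) = ((F y : NO φ n) : EG φ n) := by
        rw [hxy]
      apply Subtype.ext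
      exact congrArg SemidirectProduct.left h1
    · rintro ⟨⟨⟨x, ρ⟩, hx⟩, hz⟩
      obtain ⟨hz1, hz2⟩ := Subgroup.mem_inf.1 hz
      have hρ : ρ = 1 := hz2
      subst hρ
      rw [Subgroup.mem_subgroupOf] at hz1
      have h3 : Equiv.Perm.sign x.right = χ 1 := hz1.2
      rw [map_one] at h3
      exact ⟨⟨x, (mem_Ev x).2 ⟨hx, h3⟩⟩, rfl⟩
  exact perf_equiv (MulEquiv.ofBijective F hF) (perf_of_le _ (ev_le hn))

/-- The kernel of the projection. -/
noncomputable def twKer (hn : 5 ≤ n) : (twNProj φ χ n).ker ≃* commutator (Wr G n) := by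
  refine MulEquiv.symm (MulEquiv.trans (MulEquiv.subgroupCongr (ev_eq hn)) ?_)
  refine MulEquiv.ofBijective (MonoidHom.mk' (fun x : Ev G n =>
    (⟨⟨⟨x.1, 1⟩, ⟨((mem_Ev x.1).1 x.2).1, by
      change Equiv.Perm.sign x.1.right = χ 1
      rw [map_one]
      exact ((mem_Ev x.1).1 x.2).2⟩⟩, rfl⟩ : (twNProj φ χ n).ker)) (fun x y => by
    apply Subtype.ext
    apply Subtype.ext
    apply SemidirectProduct.ext
    · change (x.1 * y.1) = x.1 * wrAct φ n 1 y.1
      rw [map_one]
      rfl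
    · exact (mul_one 1).symm)) ⟨?_, ?_⟩
  · intro x y hxy
    have h1 := congrArg (fun z : (twNProj φ χ n).ker => ((z : TwNO φ χ n) : EG φ n).left) hxy
    exact Subtype.ext h1
  · rintro ⟨⟨⟨x, ρ⟩, hx⟩, hz⟩
    have hρ : ρ = 1 := hz
    subst hρ
    obtain ⟨h1, h3⟩ := hx
    have h3' : Equiv.Perm.sign x.right = χ 1 := h3
    rw [map_one] at h3'
    exact ⟨⟨x, (mem_Ev x).2 ⟨h1, h3'⟩⟩, rfl⟩

end grp

theorem five_le {k n : ℕ} (hk : 0 < k) (hn : ((3 * k + 2).factorial) ^ 3 ≤ n) : 5 ≤ n := by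
  have h2 : 5 ≤ (3 * k + 2).factorial := le_trans (by omega) (Nat.self_le_factorial _)
  have h3 : (3 * k + 2).factorial ≤ (3 * k + 2).factorial ^ 3 := Nat.le_self_pow (by omega) _
  omega

/-- Towers. -/
theorem towerL (K L : Type) [Field K] [CharZero K] [Field L] [Algebra K L]
    [FiniteDimensional K L] [IsGalois K L] (G : Type) [Group G] [Finite G]
    (φ : (L ≃ₐ[K] L) →* MulAut G) (χ : (L ≃ₐ[K] L) →* ℤˣ) (n : ℕ)
    (hn : ((3 * Nat.card G + 2).factorial) ^ 3 ≤ n) : ∃ k₀ : ℕ, ∀ k ≥ k₀,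
      RegSol K L (AltEP (twNProj φ χ n) (8 * k + 4)) (altProj (twNProj φ χ n) (8 * k + 4)) := by
  have h5 : 5 ≤ n := five_le Nat.card_pos hn
  have hf0 : Finite (Wr G n) := finite_wr G n
  have hf1 : Finite (EG φ n) := finite_eg φ n
  obtain ⟨k₀, hk₀⟩ := mainL K L (NO φ n) (noProj φ n) (reg_kerL K L G φ n hn)
    ((TwNO φ χ n).subgroupOf (NO φ n)) (tw_index φ χ (by omega)) (tw_map φ χ (by omega))
    (fun H hH => tw_perf φ χ h5 H hH)
  refine ⟨k₀, fun k hk => ?_⟩
  exact regSol_iso K L _ _ _ _ (altCongr _ (twNProj φ χ n)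
    (Subgroup.subgroupOfEquivOfLe (twNO_le φ χ n)) (fun g => rfl) (8 * k + 4)) (fun z => rfl)
    (hk₀ k hk)

section hilb

variable (K L : Type) [Field K] [CharZero K] [Field L] [Algebra K L]
    [FiniteDimensional K L] [IsGalois K L] (hK : HilbField K) (G : Type) [Group G] [Finite G]
    (φ : (L ≃ₐ[K] L) →* MulAut G)

include hK

/-- Hilbertian fields. -/
theorem hil_kerL (n : ℕ) (hn : ((3 * Nat.card G + 2).factorial) ^ 3 ≤ n) :
    SolOver K L (NO φ n) (noProj φ n) K False := by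
  have hf0 : Finite (Wr G n) := finite_wr G n
  have hf1 : Finite (EG φ n) := finite_eg φ n
  exact hil_regL K L _ _ hK (reg_kerL K L G φ n hn)

theorem hil_towerL (χ : (L ≃ₐ[K] L) →* ℤˣ) (n : ℕ)
    (hn : ((3 * Nat.card G + 2).factorial) ^ 3 ≤ n) : ∃ k₀ : ℕ, ∀ k ≥ k₀,
      SolOver K L (AltEP (twNProj φ χ n) (8 * k + 4)) (altProj (twNProj φ χ n) (8 * k + 4))
        K False := by
  have hf0 : Finite (Wr G n) := finite_wr G n
  have hf1 : Finite (EG φ n) := finite_eg φ n
  obtain ⟨k₀, hk₀⟩ := towerL K L G φ χ n hn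
  exact ⟨k₀, fun k hk => hil_regL K L _ _ hK (hk₀ k hk)⟩

end hilb

end Pool.Agent.R367.IG
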