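import Mathlib
import Pool.Agent.R367.IG.OutL

set_option autoImplicit false

/-!
Sections, and the case of a trivial extension of constants.
-/

namespace Pool.Agent.R367.IG

open Pool.Agent.H391R2 Pool.Agent.H391R2.T4 Pool.Agent.Y793

section sec

variable {Γ G : Type} [Group Γ] [Group G] (φ : Γ →* MulAut G) (χ : Γ →* ℤˣ) (n : ℕ)

theorem no_sec : ∃ s : Γ →* NO φ n, ∀ ρ, noProj φ n (s ρ) = ρ := by
  refine ⟨(SemidirectProduct.inr : Γ →* EG φ n).codRestrict (NO φ n) (fun ρ => ?_), fun ρ => rfl⟩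
  exact map_one (wcls G n)

theorem unit_hom (t : Wr G n) (ht : t * t = 1) : ∃ h : ℤˣ →* Wr G n, h (-1) = t := by
  have hne : ¬ (-1 : ℤˣ) = 1 := by decide
  have hmul : ∀ a b : ℤˣ, (if a * b = 1 then (1 : Wr G n) else t) =
      (if a = 1 then 1 else t) * (if b = 1 then 1 else t) := by
    intro a b
    rcases Int.units_eq_one_or a with rfl | rfl <;> rcases Int.units_eq_one_or b with rfl | rfl
    · simp
    · simp
    · simp
    · rw [if_pos (by decide), if_neg hne, ht]
  refine ⟨MonoidHom.mk' (fun e => if e = 1 then 1 else t) hmul, ?_⟩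
  change (if (-1 : ℤˣ) = 1 then (1 : Wr G n) else t) = t
  exact if_neg hne

variable {n}

theorem tw_sec (hn : 2 ≤ n) : ∃ s : Γ →* TwNO φ χ n, ∀ ρ, twNProj φ χ n (s ρ) = ρ := by
  have h01 : (⟨0, by omega⟩ : Fin n) ≠ ⟨1, by omega⟩ := by
    intro h
    have := congrArg Fin.val h
    simp at this
  let τ : Equiv.Perm (Fin n) := Equiv.swap ⟨0, by omega⟩ ⟨1, by omega⟩
  have hτ : Equiv.Perm.sign τ = -1 := Equiv.Perm.sign_swap h01
  let t : Wr G n := SemidirectProduct.inr τ
  have ht : t * t = 1 := by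
    change (SemidirectProduct.inr τ : Wr G n) * SemidirectProduct.inr τ = 1
    rw [← map_mul, Equiv.swap_mul_self, map_one]
  obtain ⟨h, hh⟩ := unit_hom n t ht
  have hcases : ∀ ρ, h (χ ρ) = 1 ∧ χ ρ = 1 ∨ h (χ ρ) = t ∧ χ ρ = -1 := by
    intro ρ
    rcases Int.units_eq_one_or (χ ρ) with h1 | h1
    · exact Or.inl ⟨by rw [h1, map_one], h1⟩
    · exact Or.inr ⟨by rw [h1, hh], h1⟩
  have hfix : ∀ ρ ρ', wrAct φ n ρ (h (χ ρ')) = h (χ ρ') := by
    intro ρ ρ'
    rcases hcases ρ' with ⟨h1, -⟩ | ⟨h1, -⟩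
    · rw [h1, map_one]
    · rw [h1]
      apply SemidirectProduct.ext
      · funext i
        rw [wrAct_left]
        exact map_one (φ ρ)
      · rfl
  let s : Γ →* EG φ n := MonoidHom.mk' (fun ρ => ⟨h (χ ρ), ρ⟩) (fun ρ ρ' => by
    apply SemidirectProduct.ext
    · change h (χ (ρ * ρ')) = h (χ ρ) * wrAct φ n ρ (h (χ ρ'))
      rw [hfix, map_mul, map_mul]
    · rfl)
  refine ⟨s.codRestrict (TwNO φ χ n) (fun ρ => ?_), fun ρ => rfl⟩
  rcases hcases ρ with ⟨h1, h2⟩ | ⟨h1, h2⟩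
  · refine ⟨?_, ?_⟩
    · change wcls G n (h (χ ρ)) = 1
      rw [h1, map_one]
    · change Equiv.Perm.sign (h (χ ρ)).right = χ ρ
      rw [h1, h2]
      exact map_one _
  · refine ⟨?_, ?_⟩
    · change wcls G n (h (χ ρ)) = 1
      rw [h1, wcls_apply]
      refine Finset.prod_eq_one fun i _ => ?_
      change Abelianization.of ((SemidirectProduct.inr τ : Wr G n).left i) = 1
      rw [SemidirectProduct.left_inr, Pi.one_apply, map_one]
    · change Equiv.Perm.sign (h (χ ρ)).right = χ ρ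
      rw [h1, h2]
      exact hτ

theorem alt_sec {B : Type} [Group B] (α : B →* Γ) (s : Γ →* B) (hs : ∀ ρ, α (s ρ) = ρ) (r : ℕ) :
    ∃ s' : Γ →* AltEP α r, ∀ ρ, altProj α r (s' ρ) = ρ := by
  refine ⟨MonoidHom.mk' (fun ρ => ⟨(⟨fun _ => s ρ, 1⟩, ρ), Subgroup.mem_inf.2
    ⟨fun i => hs ρ, ?_⟩⟩) (fun ρ ρ' => ?_), fun ρ => rfl⟩
  · change Equiv.Perm.sign (1 : Equiv.Perm (Fin r)) = 1
    exact map_one _
  · apply Subtype.ext
    refine Prod.ext ?_ rfl
    apply SemidirectProduct.ext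
    · funext i
      exact map_mul s ρ ρ'
    · exact (mul_one 1).symm

theorem tower_sec (hn : 2 ≤ n) (r : ℕ) : ∃ s : Γ →* AltEP (twNProj φ χ n) r,
    ∀ ρ, altProj (twNProj φ χ n) r (s ρ) = ρ := by
  obtain ⟨s, hs⟩ := tw_sec (G := G) φ χ hn
  exact alt_sec _ s hs r

theorem twKer_perf (hn : 5 ≤ n) : commutator (twNProj φ χ n).ker = ⊤ :=
  perf_equiv (twKer φ χ hn).symm (comm_perf hn)

end sec

/-! ### Trivial extension of constants -/

/-- The norm-one group is a regular Galois group, uniform version. -/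
theorem reg_ker_unif (K : Type) [Field K] [CharZero K] (G : Type) [Group G] [Finite G] (n : ℕ)
    (hn : ((3 * Nat.card G + 2).factorial) ^ 3 ≤ n) : RegSol K K (wcls G n).ker 1 := by
  have hsub : ∀ a b : (K ≃ₐ[K] K), a = b := fun a b => by
    apply AlgEquiv.ext
    intro x
    exact (a.commutes x).trans (b.commutes x).symm
  let φ : (K ≃ₐ[K] K) →* MulAut G := 1
  let e : NO φ n ≃* (wcls G n).ker :=
    { toFun := fun z => ⟨z.1.left, z.2⟩
      invFun := fun x => ⟨⟨x.1, 1⟩, x.2⟩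
      left_inv := fun z => by
        apply Subtype.ext
        apply SemidirectProduct.ext
        · rfl
        · exact hsub _ _
      right_inv := fun x => rfl
      map_mul' := fun a b => by
        apply Subtype.ext
        change a.1.left * wrAct φ n a.1.right b.1.left = a.1.left * b.1.left
        have h1 : wrAct φ n a.1.right b.1.left = b.1.left := by
          rw [hsub a.1.right 1, map_one]
          rfl
        rw [h1] }
  exact regSol_iso K K _ _ _ _ e (fun z => hsub _ _) (reg_kerL K K G φ n hn)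

theorem main_unif (K : Type) [Field K] [CharZero K] (G : Type) [Group G] [Finite G] (n : ℕ)
    (hn : ((3 * Nat.card G + 2).factorial) ^ 3 ≤ n) : ∃ k₀ : ℕ, ∀ k ≥ k₀,
      RegSol K K (AWr (commutator (Wr G n)) (8 * k + 4)) 1 := by
  have h5 : 5 ≤ n := five_le Nat.card_pos hn
  have hf : Finite (Wr G n) := finite_wr G n
  obtain ⟨k₀, hk₀⟩ := main K (wcls G n).ker (reg_ker_unif K G n hn) (PEv G n) (pev_index h5)
    (pev_perf h5)
  exact ⟨k₀, fun k hk => regSol_congr K _ _ (aCongr (pevEquiv h5) _) (hk₀ k hk)⟩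

end Pool.Agent.R367.IG
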