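import Mathlib
import Pool.Agent.R367.IG.Sec
import Pool.Agent.TH59.WX.UG
import Pool.Agent.H391R2.T4.Abl

set_option autoImplicit false

/-!
A closure property of the class of the Galois groups over a Hilbertian field.
-/

namespace Pool.Agent.R367.IG

open Nfff32c05 Pool.Agent.H391R2 Pool.Agent.H391R2.T4 Pool.Agent.Y793

theorem real_no (K : Type) [Field K] [CharZero K] (hK : HilbField K) (Γ : Type) [Group Γ]
    [Finite Γ] (h : IsRealizable K Γ) (G : Type) [Group G] [Finite G] (φ : Γ →* MulAut G) (n : ℕ)
    (hn : ((3 * Nat.card G + 2).factorial) ^ 3 ≤ n) : IsRealizable K (NO φ n) := by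
  obtain ⟨L, i1, i2, i3, i4, ⟨f⟩⟩ := Pool.Agent.TH59.WX.exists_gal_of K Γ h
  let φ' : (L ≃ₐ[K] L) →* MulAut G := φ.comp f.symm.toMonoidHom
  obtain ⟨F', j1, j2, j3, j4, j5, j6, j7, j8, γ, -⟩ := hil_kerL K L hK G φ' n hn
  let e : NO φ n ≃* NO φ' n :=
    { toFun := fun z => ⟨⟨z.1.left, f z.1.right⟩, z.2⟩
      invFun := fun z => ⟨⟨z.1.left, f.symm z.1.right⟩, z.2⟩
      left_inv := fun z => by
        apply Subtype.ext
        apply SemidirectProduct.ext
        · rfl
        · exact f.symm_apply_apply _
      right_inv := fun z => by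
        apply Subtype.ext
        apply SemidirectProduct.ext
        · rfl
        · exact f.apply_symm_apply _
      map_mul' := fun a b => by
        apply Subtype.ext
        apply SemidirectProduct.ext
        · change a.1.left * wrAct φ n a.1.right b.1.left =
            a.1.left * wrAct φ' n (f a.1.right) b.1.left
          congr 1
          apply SemidirectProduct.ext
          · funext i
            change φ a.1.right _ = φ (f.symm (f a.1.right)) _
            rw [f.symm_apply_apply]
          · rfl
        · exact f.map_mul _ _ }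
  exact ⟨⟨⟨F', j1, j2, j8, (γ.trans e.symm).symm⟩⟩⟩

end Pool.Agent.R367.IG
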